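import Pool.Agent.Lib.MP_863a8d_al.IV.Defs

/-!
# JOB Basic: elementary facts on `nsq`, `amp`, `En`

All sums are finite. `amp_eq`: terms outside the support of `c` vanish (`conj (c x) = 0`).
`nsq_eq` likewise. `abs_amp_le`: `|Re (conj a * (p * b))| ≤ ‖a‖ ‖b‖ ≤ (‖a‖² + ‖b‖²) / 2` with `‖p‖ = 1`
(`norm_ph`); sum over a finite set `F` containing `c.support` and its image under `x ↦ g x`
(`Finset.sum_bij` or `Finset.sum_image`: `∑ x ∈ F, ‖c (g⁻¹ x)‖² = nsq c`, or `≤`).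
`amp_inv`: substitute `x = g⁻¹ y`: `co N g⁻¹ (g⁻¹ y) * co N g y = co N (g g⁻¹) y = 1` (use `co_mul` for the
product `g * g⁻¹`, or `ph_mul` and `ph_one`: `ph g y * ph g⁻¹ (g⁻¹ y) = 1`), so the term of the left side
is the real part of the complex conjugate of the term of the right side.
-/

set_option autoImplicit false

open scoped ComplexConjugate

namespace Pool.SpecDense.IV

universe u

variable {G : Type u} [Group G] {N : Subgroup G} [N.Normal]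

theorem nsq_eq {Q : Type u} (c : Q →₀ ℂ) (F : Finset Q) (hF : c.support ⊆ F) :
    nsq c = ∑ x ∈ F, ‖c x‖ ^ 2 := by
  unfold nsq
  refine Finset.sum_subset hF fun x _ hx => ?_
  rw [Finsupp.notMem_support_iff.1 hx, norm_zero]
  norm_num

theorem amp_eq (ℓ : G → ℝ) (t : ℝ) (q : G) (c : G ⧸ N →₀ ℂ) (g : G) (F : Finset (G ⧸ N))
    (hF : c.support ⊆ F) :
    amp N ℓ t q c g = ∑ x ∈ F, (conj (c x) * (ph N ℓ t q g x * c ((g : G ⧸ N)⁻¹ * x))).re := by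
  unfold amp
  refine Finset.sum_subset hF fun x _ hx => ?_
  rw [Finsupp.notMem_support_iff.1 hx, map_zero, zero_mul, Complex.zero_re]

theorem sum_shift_le {Q : Type u} [Group Q] (c : Q →₀ ℂ) (z : Q) (F : Finset Q) :
    ∑ x ∈ F, ‖c (z * x)‖ ^ 2 ≤ nsq c := by
  classical
  have h1 : ∑ y ∈ F.image (fun x => z * x), ‖c y‖ ^ 2 = ∑ x ∈ F, ‖c (z * x)‖ ^ 2 :=
    Finset.sum_image fun x _ y _ h => mul_left_cancel h
  rw [← h1, nsq_eq c (F.image (fun x => z * x) ∪ c.support) Finset.subset_union_right]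
  exact Finset.sum_le_sum_of_subset_of_nonneg Finset.subset_union_left fun _ _ _ => by positivity

theorem sum_mul_shift_le {Q : Type u} [Group Q] (c : Q →₀ ℂ) (z : Q) (F : Finset Q) :
    ∑ x ∈ F, ‖c x‖ * ‖c (z * x)‖ ≤ nsq c := by
  have h1 := sum_shift_le c z F
  have h2 := sum_shift_le c 1 F
  simp only [one_mul] at h2
  have h3 : ∑ x ∈ F, ‖c x‖ * ‖c (z * x)‖ ≤ ∑ x ∈ F, (‖c x‖ ^ 2 + ‖c (z * x)‖ ^ 2) / 2 := by
    refine Finset.sum_le_sum fun x _ => ?_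
    have h := sq_nonneg (‖c x‖ - ‖c (z * x)‖)
    nlinarith
  rw [← Finset.sum_div, Finset.sum_add_distrib] at h3
  linarith

theorem abs_amp_le (ℓ : G → ℝ) (t : ℝ) (q : G) (c : G ⧸ N →₀ ℂ) (g : G) :
    |amp N ℓ t q c g| ≤ nsq c := by
  unfold amp
  refine (Finset.abs_sum_le_sum_abs _ _).trans ?_
  refine le_trans (Finset.sum_le_sum fun x _ => ?_) (sum_mul_shift_le c ((g : G ⧸ N)⁻¹) c.support)
  refine (Complex.abs_re_le_norm _).trans (le_of_eq ?_)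
  rw [norm_mul, norm_mul, norm_ph, one_mul, RCLike.norm_conj]

theorem En_nonneg (W : Walk G) (ℓ : G → ℝ) (t : ℝ) (q : G) (c : G ⧸ N →₀ ℂ) :
    0 ≤ En N W ℓ t q c := by
  unfold En
  have h1 : W.E (fun s => amp N ℓ t q c s) ≤ W.E (fun _ => nsq c) :=
    W.E_mono fun s _ => (le_abs_self _).trans (abs_amp_le ℓ t q c s)
  rw [W.E_const] at h1
  linarith

private theorem basic_bdd (W : Walk G) (ℓ : G → ℝ) (t : ℝ) :
    BddBelow {e : ℝ | ∃ (q : G) (c : G ⧸ N →₀ ℂ), c ≠ 0 ∧ e = En N W ℓ t q c / nsq c} := by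
  refine ⟨0, ?_⟩
  rintro e ⟨q, c, -, rfl⟩
  exact div_nonneg (En_nonneg W ℓ t q c) (nsq_nonneg c)

private theorem basic_ne (W : Walk G) (ℓ : G → ℝ) (t : ℝ) :
    {e : ℝ | ∃ (q : G) (c : G ⧸ N →₀ ℂ), c ≠ 0 ∧ e = En N W ℓ t q c / nsq c}.Nonempty :=
  ⟨_, 1, Finsupp.single 1 1, Finsupp.single_ne_zero.2 one_ne_zero, rfl⟩

theorem E0_le (W : Walk G) (ℓ : G → ℝ) (t : ℝ) (q : G) (c : G ⧸ N →₀ ℂ) :
    E0 N W ℓ t * nsq c ≤ En N W ℓ t q c := by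
  by_cases hc : c = 0
  · have h0 : nsq c = 0 := by
      rw [hc]
      unfold nsq
      simp
    rw [h0, mul_zero]
    exact En_nonneg W ℓ t q c
  · have h1 : E0 N W ℓ t ≤ En N W ℓ t q c / nsq c := csInf_le (basic_bdd W ℓ t) ⟨q, c, hc, rfl⟩
    exact (le_div_iff₀ (nsq_pos hc)).1 h1

theorem E0_nonneg (W : Walk G) (ℓ : G → ℝ) (t : ℝ) : 0 ≤ E0 N W ℓ t := by
  refine Real.sInf_nonneg ?_
  rintro e ⟨q, c, -, rfl⟩
  exact div_nonneg (En_nonneg W ℓ t q c) (nsq_nonneg c)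

theorem le_E0 (W : Walk G) (ℓ : G → ℝ) (t b : ℝ)
    (h : ∀ (q : G) (c : G ⧸ N →₀ ℂ), b * nsq c ≤ En N W ℓ t q c) : b ≤ E0 N W ℓ t := by
  refine le_csInf (basic_ne W ℓ t) ?_
  rintro e ⟨q, c, hc, rfl⟩
  exact (le_div_iff₀ (nsq_pos hc)).2 (h q c)

theorem exists_near (W : Walk G) (ℓ : G → ℝ) (t : ℝ) {η : ℝ} (hη : 0 < η) :
    ∃ (q : G) (c : G ⧸ N →₀ ℂ), c ≠ 0 ∧ En N W ℓ t q c ≤ (E0 N W ℓ t + η) * nsq c := by
  have h1 : sInf {e : ℝ | ∃ (q : G) (c : G ⧸ N →₀ ℂ), c ≠ 0 ∧ e = En N W ℓ t q c / nsq c} <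
      E0 N W ℓ t + η := lt_add_of_pos_right _ hη
  obtain ⟨e, ⟨q, c, hc, rfl⟩, he⟩ := exists_lt_of_csInf_lt (basic_ne W ℓ t) h1
  exact ⟨q, c, hc, ((div_lt_iff₀ (nsq_pos hc)).1 he).le⟩

end Pool.SpecDense.IV
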