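import Pool.Agent.Lib.MP_863a8d_al.Dich
import Pool.Agent.Lib.MP_863a8d_al.Pos

/-!
# An interval at the top of the spectrum: definitions

`Ell N ℓ`: the function `ℓ` is additive on the subgroup `N`, bounded along conjugation, and uniformly
nonzero along conjugation. For normal `N` and real `t` the character `exp (i t ℓ)` of `N` induces a
unitary representation of `G`, realised on finitely supported functions on `G ⧸ N`.

`co N g x` is the cocycle `σ(g⁻¹ x)⁻¹ g⁻¹ σ(x) ∈ N`, `σ = Quotient.out`.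
`ph N ℓ t q g x = exp (-i t ℓ (q⁻¹ co(g, x) q))`.
The representation is `(π(g) c)(x) = ph g x * c (g⁻¹ x)`;
`nsq c = ‖c‖²`, `amp g = Re ⟨c, π(g) c⟩`, `En = ⟨c, (1 - π(μ)) c⟩`.
-/

set_option autoImplicit false

open scoped ComplexConjugate

namespace Pool.SpecDense

universe u

variable {G : Type u} [Group G]

/-- `ℓ` is additive on `N`, bounded along conjugation and uniformly nonzero along conjugation. -/
structure Ell (N : Subgroup G) (ℓ : G → ℝ) : Prop where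
  add : ∀ a ∈ N, ∀ b ∈ N, ℓ (a * b) = ℓ a + ℓ b
  bdd : ∀ n ∈ N, ∃ C : ℝ, ∀ g : G, |ℓ (g⁻¹ * n * g)| ≤ C
  away : ∃ (E : Finset G) (c : ℝ), (∀ n ∈ E, n ∈ N) ∧ 0 < c ∧
    ∀ g : G, ∃ n ∈ E, c ≤ |ℓ (g⁻¹ * n * g)|

namespace IV

/-- squared norm -/
noncomputable def nsq {Q : Type u} (c : Q →₀ ℂ) : ℝ := ∑ x ∈ c.support, ‖c x‖ ^ 2

section

variable (N : Subgroup G) [N.Normal]

/-- the cocycle -/
noncomputable def co (g : G) (x : G ⧸ N) : G :=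
  (Quotient.out ((g : G ⧸ N)⁻¹ * x))⁻¹ * g⁻¹ * Quotient.out x

/-- the phase -/
noncomputable def ph (ℓ : G → ℝ) (t : ℝ) (q g : G) (x : G ⧸ N) : ℂ :=
  Complex.exp (((-(t * ℓ (q⁻¹ * co N g x * q)) : ℝ) : ℂ) * Complex.I)

/-- matrix coefficient -/
noncomputable def amp (ℓ : G → ℝ) (t : ℝ) (q : G) (c : G ⧸ N →₀ ℂ) (g : G) : ℝ :=
  ∑ x ∈ c.support, (conj (c x) * (ph N ℓ t q g x * c ((g : G ⧸ N)⁻¹ * x))).re

/-- energy -/
noncomputable def En (W : Walk G) (ℓ : G → ℝ) (t : ℝ) (q : G) (c : G ⧸ N →₀ ℂ) : ℝ :=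
  nsq c - W.E (fun s => amp N ℓ t q c s)

/-- the bottom of the spectrum for the parameter `t` -/
noncomputable def E0 (W : Walk G) (ℓ : G → ℝ) (t : ℝ) : ℝ :=
  sInf {e : ℝ | ∃ (q : G) (c : G ⧸ N →₀ ℂ), c ≠ 0 ∧ e = En N W ℓ t q c / nsq c}

lemma co_mem (g : G) (x : G ⧸ N) : co N g x ∈ N := by
  have h1 : ∀ y : G ⧸ N, ((Quotient.out y : G) : G ⧸ N) = y := fun y => QuotientGroup.out_eq' y
  rw [← QuotientGroup.eq_one_iff]
  unfold co
  rw [QuotientGroup.mk_mul, QuotientGroup.mk_mul, QuotientGroup.mk_inv, QuotientGroup.mk_inv,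
    h1, h1]
  group

lemma co_mul (g h : G) (x : G ⧸ N) :
    co N (g * h) x = co N h ((g : G ⧸ N)⁻¹ * x) * co N g x := by
  unfold co
  have h1 : ((g * h : G) : G ⧸ N)⁻¹ * x = (h : G ⧸ N)⁻¹ * ((g : G ⧸ N)⁻¹ * x) := by
    rw [QuotientGroup.mk_mul]
    group
  rw [h1]
  group

lemma co_one (x : G ⧸ N) : co N 1 x = 1 := by
  unfold co
  simp

lemma norm_ph (ℓ : G → ℝ) (t : ℝ) (q g : G) (x : G ⧸ N) : ‖ph N ℓ t q g x‖ = 1 := by
  unfold ph
  exact Complex.norm_exp_ofReal_mul_I _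

variable {N}

lemma Ell.mem_conj' {n : G} (hn : n ∈ N) (q : G) : q⁻¹ * n * q ∈ N := by
  have := (inferInstance : N.Normal).conj_mem n hn q⁻¹
  simpa using this

lemma ph_mul {ℓ : G → ℝ} (hadd : ∀ a ∈ N, ∀ b ∈ N, ℓ (a * b) = ℓ a + ℓ b) (t : ℝ) (q g h : G)
    (x : G ⧸ N) :
    ph N ℓ t q (g * h) x = ph N ℓ t q g x * ph N ℓ t q h ((g : G ⧸ N)⁻¹ * x) := by
  unfold ph
  have h1 : q⁻¹ * co N (g * h) x * q =
      (q⁻¹ * co N h ((g : G ⧸ N)⁻¹ * x) * q) * (q⁻¹ * co N g x * q) := by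
    rw [co_mul]
    group
  rw [h1, hadd _ (Ell.mem_conj' (co_mem N _ _) q) _ (Ell.mem_conj' (co_mem N _ _) q),
    ← Complex.exp_add]
  congr 1
  push_cast
  ring

lemma ph_one {ℓ : G → ℝ} (hadd : ∀ a ∈ N, ∀ b ∈ N, ℓ (a * b) = ℓ a + ℓ b) (t : ℝ) (q : G)
    (x : G ⧸ N) : ph N ℓ t q 1 x = 1 := by
  have h0 : ℓ 1 = 0 := by
    have := hadd 1 N.one_mem 1 N.one_mem
    rw [mul_one] at this
    linarith
  unfold ph
  rw [co_one]
  simp [h0]

lemma nsq_nonneg {Q : Type u} (c : Q →₀ ℂ) : 0 ≤ nsq c :=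
  Finset.sum_nonneg fun _ _ => by positivity

lemma nsq_pos {Q : Type u} {c : Q →₀ ℂ} (hc : c ≠ 0) : 0 < nsq c := by
  obtain ⟨x, hx⟩ := Finsupp.support_nonempty_iff.2 hc
  refine lt_of_lt_of_le ?_ (Finset.single_le_sum (f := fun x => ‖c x‖ ^ 2)
    (fun _ _ => by positivity) hx)
  have : c x ≠ 0 := Finsupp.mem_support_iff.1 hx
  positivity

end

end IV

end Pool.SpecDense
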