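import Mathlib

/-!
# Elementary amenable groups

`ElemAmen G`: the group `G` belongs to every class of groups (in the universe of `G`) which contains all
finite groups and all commutative groups and is closed under subgroups, quotients, extensions and
directed unions, that is to the smallest such class.

`VI G`: some subgroup of finite index has a nonzero homomorphism to the additive group of real numbers
(given as a function on `G` which is additive on the subgroup and not identically zero on it).
-/

set_option autoImplicit false

namespace Pool.SpecDense

universe u

/-- A class of groups which contains the finite and the commutative groups and is closed under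
subgroups, quotients, extensions and directed unions. -/
structure EAClass (P : ∀ (G : Type u) [Group G], Prop) : Prop where
  finite : ∀ (G : Type u) [Group G], Finite G → P G
  comm : ∀ (G : Type u) [Group G], (∀ a b : G, a * b = b * a) → P G
  sub : ∀ (G H : Type u) [Group G] [Group H] (f : H →* G), Function.Injective f → P G → P H
  quot : ∀ (G H : Type u) [Group G] [Group H] (f : G →* H), Function.Surjective f → P G → P H
  ext : ∀ (G : Type u) [Group G] (N : Subgroup G) [N.Normal], P N → P (G ⧸ N) → P G
  union : ∀ (G : Type u) [Group G] (D : Set (Subgroup G)), D.Nonempty → DirectedOn (· ≤ ·) D →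
    (∀ g : G, ∃ H ∈ D, g ∈ H) → (∀ H ∈ D, P H) → P G

/-- Elementary amenable groups. -/
def ElemAmen (G : Type u) [Group G] : Prop :=
  ∀ P : ∀ (G : Type u) [Group G], Prop, EAClass P → P G

/-- A subgroup of finite index has a nonzero homomorphism to the real numbers. -/
def VI (G : Type u) [Group G] : Prop :=
  ∃ (K : Subgroup G) (ℓ : G → ℝ), K.FiniteIndex ∧ (∀ a ∈ K, ∀ b ∈ K, ℓ (a * b) = ℓ a + ℓ b) ∧
    ∃ a ∈ K, ℓ a ≠ 0

/-- Every finitely generated infinite quotient of a subgroup is virtually indicable. -/
def SubQ (G : Type u) [Group G] : Prop :=
  ∀ (L : Subgroup G) (A : Type u) [Group A] (f : L →* A), Function.Surjective f → Group.FG A →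
    Infinite A → VI A

end Pool.SpecDense
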