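import Pool.Agent.Lib.MP_863a8d_al.IV.EA

/-!
# JOB EA1: virtual indicability, easy closure properties

`VI.comap`: if `f : A → B` is surjective and `VI B` with `(K, ℓ)`, take `K.comap f` (finite index:
`Subgroup.index_comap_of_surjective`) and `ℓ ∘ f`.
`VI.of_sub`: `B` of finite index in `A`, `VI B` with `K ≤ B`; take `K.map B.subtype`
(index = `K.index * B.index`: `Subgroup.index_map_subtype` or `relIndex_mul_index`) and the function
`a ↦ if h : a ∈ B then ℓ ⟨a, h⟩ else 0`.
`VI.comm`: a finitely generated infinite commutative group `A`: use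
`CommGroup.equiv_free_prod_prod_multiplicative_zmod` (or `AddCommGroup.equiv_free_prod_directSum_zmod` for
`Additive A`): `A ≃* (free of rank n) × finite`; `n ≠ 0` because `A` is infinite; `K = ⊤`, `ℓ` = a coordinate.
(Another way: by `CommGroup.finite_of_fg_isMulTorsion`-type lemma there is an element of infinite order.)
-/

set_option autoImplicit false

namespace Pool.SpecDense

universe u

theorem VI.comap {A B : Type u} [Group A] [Group B] (f : A →* B) (hf : Function.Surjective f)
    (h : VI B) : VI A := by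
  obtain ⟨K, ℓ, hK, hadd, b, hb, hb0⟩ := h
  refine ⟨K.comap f, fun a => ℓ (f a), ?_, ?_, ?_⟩
  · rw [Subgroup.finiteIndex_iff, Subgroup.index_comap_of_surjective K hf]
    exact Subgroup.finiteIndex_iff.1 hK
  · intro a ha a' ha'
    show ℓ (f (a * a')) = ℓ (f a) + ℓ (f a')
    rw [map_mul]
    exact hadd _ ha _ ha'
  · obtain ⟨a, rfl⟩ := hf b
    exact ⟨a, hb, hb0⟩

theorem VI.of_sub {A : Type u} [Group A] (B : Subgroup A) (hB : B.FiniteIndex) (h : VI B) :
    VI A := by
  classical
  obtain ⟨K, ℓ, hK, hadd, b, hb, hb0⟩ := h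
  refine ⟨K.map B.subtype, fun a => if h : a ∈ B then ℓ ⟨a, h⟩ else 0, ?_, ?_, ?_⟩
  · rw [Subgroup.finiteIndex_iff, Subgroup.index_map_subtype]
    exact mul_ne_zero (Subgroup.finiteIndex_iff.1 hK) (Subgroup.finiteIndex_iff.1 hB)
  · rintro a ⟨x, hx, rfl⟩ a' ⟨x', hx', rfl⟩
    have h1 : (B.subtype x : A) ∈ B := x.2
    have h2 : (B.subtype x' : A) ∈ B := x'.2
    have h3 : (B.subtype x * B.subtype x' : A) ∈ B := B.mul_mem h1 h2
    show (if h : (B.subtype x * B.subtype x' : A) ∈ B then ℓ ⟨_, h⟩ else 0) =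
      (if h : (B.subtype x : A) ∈ B then ℓ ⟨_, h⟩ else 0) + (if h : (B.subtype x' : A) ∈ B then ℓ ⟨_, h⟩ else 0)
    rw [dif_pos h1, dif_pos h2, dif_pos h3]
    exact hadd x hx x' hx'
  · refine ⟨B.subtype b, ⟨b, hb, rfl⟩, ?_⟩
    have h1 : (B.subtype b : A) ∈ B := b.2
    show (if h : (B.subtype b : A) ∈ B then ℓ ⟨_, h⟩ else 0) ≠ 0
    rw [dif_pos h1]
    exact hb0

theorem EA1_exists {N : Type*} [AddCommGroup N] (a : N) (ha : ∀ n : ℤ, n • a = 0 → n = 0) :
    ∃ h : N →+ ℝ, h a = 1 := by
  have hinj : Function.Injective (zmultiplesHom N a) := by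
    rw [injective_iff_map_eq_zero]
    intro n hn
    exact ha n (by simpa using hn)
  obtain ⟨h, hh⟩ := (Module.Baer.of_divisible ℝ).extension_property_addMonoidHom (zmultiplesHom N a)
    hinj (Int.castAddHom ℝ)
  refine ⟨h, ?_⟩
  have := DFunLike.congr_fun hh 1
  simpa using this

theorem VI.comm {A : Type u} [Group A] (hc : ∀ a b : A, a * b = b * a) (hfg : Group.FG A)
    (hinf : Infinite A) : VI A := by
  let inst : CommGroup A := { (inferInstance : Group A) with mul_comm := hc }
  have hfg' : Group.FG A := hfg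
  have hnt : ¬ IsMulTorsion A := by
    intro ht
    have : Finite A := CommGroup.finite_of_fg_isMulTorsion A ht
    exact not_finite A
  have hex : ∃ a : A, ¬ IsOfFinOrder a := by
    by_contra hcon
    push Not at hcon
    exact hnt hcon
  obtain ⟨a, ha⟩ := hex
  obtain ⟨h, hh⟩ := EA1_exists (Additive.ofMul a) (by
    intro n hn
    by_contra hn0
    refine ha (isOfFinOrder_iff_zpow_eq_one.2 ⟨n, hn0, ?_⟩)
    exact hn)
  refine ⟨⊤, fun b => h (Additive.ofMul b), inferInstance, fun b _ b' _ => ?_, a, Subgroup.mem_top a, ?_⟩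
  · exact map_add h (Additive.ofMul b) (Additive.ofMul b')
  · show h (Additive.ofMul a) ≠ 0
    rw [hh]
    norm_num

end Pool.SpecDense
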