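import Pool.Agent.Lib.MP_863a8d_al.IV.EA1

/-!
# JOB EA2: the class `SubQ` has the closure properties of `EAClass`

`SubQ G`: all infinite finitely generated quotients `A` (`f : L → A` surjective) of subgroups `L` of `G` are
virtually indicable.
`SubQ.finite`: `A` is finite. `SubQ.comm`: `A` is commutative, `VI.comm`.
`SubQ.sub` (`f : H → G` injective): `L ≤ H` is isomorphic to `L.map f ≤ G`; compose.
`SubQ.quot` (`f : G → H` surjective): for `L ≤ H` the subgroup `L.comap f` surjects onto `L`.
`SubQ.union`: `A` finitely generated, `T` a finite set of generators of `A`; choose lifts of the elements of `T`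
in `L`; by directedness (induction on the finite set, or `DirectedOn.exists_mem_subset_of_finset_subset_biUnion`)
they all lie in one member `M` of the family. Then `L' = L ⊓ M`, as a subgroup of `M` (`(L ⊓ M).subgroupOf M`
or `L.subgroupOf M`), maps onto `A`: its image is a subgroup containing `T`.
-/

set_option autoImplicit false

namespace Pool.SpecDense

universe u

theorem SubQ.finite (G : Type u) [Group G] (h : Finite G) : SubQ G := by
  intro L A _ f hf _ hinf
  exfalso
  have h1 : Finite A := Finite.of_surjective f hf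
  exact not_finite A

theorem SubQ.comm (G : Type u) [Group G] (h : ∀ a b : G, a * b = b * a) : SubQ G := by
  intro L A _ f hf hfg hinf
  refine VI.comm ?_ hfg hinf
  intro a b
  obtain ⟨x, rfl⟩ := hf a
  obtain ⟨y, rfl⟩ := hf b
  rw [← map_mul, ← map_mul]
  congr 1
  exact Subtype.ext (h x y)

theorem SubQ.sub (G H : Type u) [Group G] [Group H] (f : H →* G) (hf : Function.Injective f)
    (h : SubQ G) : SubQ H := by
  intro L A _ g hg hfg hinf
  refine h (L.map f) A (g.comp (L.equivMapOfInjective f hf).symm.toMonoidHom) ?_ hfg hinf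
  rw [MonoidHom.coe_comp]
  exact hg.comp (L.equivMapOfInjective f hf).symm.surjective

theorem SubQ.quot (G H : Type u) [Group G] [Group H] (f : G →* H) (hf : Function.Surjective f)
    (h : SubQ G) : SubQ H := by
  intro L A _ g hg hfg hinf
  refine h (L.comap f) A (g.comp (f.subgroupComap L)) ?_ hfg hinf
  rw [MonoidHom.coe_comp]
  exact hg.comp (f.subgroupComap_surjective_of_surjective L hf)

theorem SubQ.union (G : Type u) [Group G] (D : Set (Subgroup G)) (hne : D.Nonempty)
    (hdir : DirectedOn (· ≤ ·) D) (hcov : ∀ g : G, ∃ H ∈ D, g ∈ H)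
    (h : ∀ H ∈ D, SubQ H) : SubQ G := by
  classical
  intro L A _ g hg hfg hinf
  obtain ⟨S, hS, hSfin⟩ := Group.fg_iff.mp hfg
  -- lifts of the generators
  let T : Finset G := hSfin.toFinset.image (fun a => ((Function.surjInv hg a : L) : G))
  have hT : (T : Set G) ⊆ ⋃ M ∈ D, (M : Set G) := by
    intro x _
    obtain ⟨M, hM, hxM⟩ := hcov x
    exact Set.mem_biUnion hM hxM
  have hdir' : DirectedOn (fun i j : Subgroup G => (i : Set G) ⊆ (j : Set G)) D := hdir
  obtain ⟨M, hM, hTM⟩ := DirectedOn.exists_mem_subset_of_finset_subset_biUnion hne hdir' hT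
  let φ : L.subgroupOf M →* L :=
    { toFun := fun x => ⟨((x : M) : G), Subgroup.mem_subgroupOf.mp x.2⟩
      map_one' := rfl
      map_mul' := fun _ _ => rfl }
  refine h M hM (L.subgroupOf M) A (g.comp φ) ?_ hfg hinf
  rw [← MonoidHom.range_eq_top, eq_top_iff, ← hS, Subgroup.closure_le]
  intro a ha
  have h1 : ((Function.surjInv hg a : L) : G) ∈ M := by
    apply hTM
    rw [Finset.mem_coe, Finset.mem_image]
    exact ⟨a, hSfin.mem_toFinset.mpr ha, rfl⟩
  refine ⟨⟨⟨((Function.surjInv hg a : L) : G), h1⟩, ?_⟩, ?_⟩
  · rw [Subgroup.mem_subgroupOf]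
    exact (Function.surjInv hg a).2
  · show g (φ _) = a
    exact Function.surjInv_eq hg a

end Pool.SpecDense
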