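import Pool.Agent.Lib.MP_863a8d_al.IV.EA1

/-!
# JOB EA3: the class `SubQ` is closed under extensions

Let `N` be normal in `G`, `SubQ N`, `SubQ (G ⧸ N)`, `L ≤ G`, `f : L → A` surjective, `A` infinite and finitely
generated. Let `LN = N.subgroupOf L` (normal in `L`) and `B = LN.map f` (normal in `A` as `f` is surjective).
The quotient `A ⧸ B` is finitely generated.
Case 1: `A ⧸ B` infinite. Let `L̄ = L.map (QuotientGroup.mk' N) ≤ G ⧸ N`. There is a surjective homomorphism
`L̄ → A ⧸ B`: the composite `L → A → A ⧸ B` kills `LN`, and `L ⧸ LN ≃* L̄` (for instance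
`QuotientGroup.lift` and `QuotientGroup.quotientKerEquivRange`, or `MonoidHom.liftOfSurjective` applied to the
surjection `L → L̄`, whose kernel is `LN`). So `VI (A ⧸ B)` by `SubQ (G ⧸ N)`, and `VI A` by `VI.comap`.
Case 2: `A ⧸ B` finite. Then `B` has finite index, so `B` is finitely generated
(`Subgroup.fg_of_index_ne_zero`) and infinite. `B` is a quotient of a subgroup of `N`: let
`L₁ = L.subgroupOf N` (a subgroup of `N`), `L₁ → B`, `x ↦ f ⟨x, _⟩`, surjective. So `VI B` by `SubQ N`, and
`VI A` by `VI.of_sub`.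
-/

set_option autoImplicit false

namespace Pool.SpecDense

universe u

theorem SubQ.ext (G : Type u) [Group G] (N : Subgroup G) [N.Normal] (h1 : SubQ N)
    (h2 : SubQ (G ⧸ N)) : SubQ G := by
  intro L A _ f hf hfg hinf
  haveI hLN : (N.subgroupOf L).Normal := inferInstance
  haveI hB : ((N.subgroupOf L).map f).Normal := hLN.map f hf
  by_cases hq : Infinite (A ⧸ (N.subgroupOf L).map f)
  · -- the quotient is infinite
    have hπ := (QuotientGroup.mk' N).subgroupMap_surjective L
    have hker : ((QuotientGroup.mk' N).subgroupMap L).ker ≤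
        ((QuotientGroup.mk' ((N.subgroupOf L).map f)).comp f).ker := by
      intro x hx
      rw [MonoidHom.mem_ker] at hx ⊢
      have h3 : (QuotientGroup.mk' N) (x : G) = 1 := congrArg Subtype.val hx
      rw [QuotientGroup.mk'_apply, QuotientGroup.eq_one_iff] at h3
      rw [MonoidHom.comp_apply, QuotientGroup.mk'_apply, QuotientGroup.eq_one_iff]
      exact Subgroup.mem_map_of_mem f (Subgroup.mem_subgroupOf.2 h3)
    let ψ := ((QuotientGroup.mk' N).subgroupMap L).liftOfSurjective hπ
      ⟨(QuotientGroup.mk' ((N.subgroupOf L).map f)).comp f, hker⟩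
    have hψ : ∀ x, ψ ((QuotientGroup.mk' N).subgroupMap L x) =
        (QuotientGroup.mk' ((N.subgroupOf L).map f)).comp f x := fun x =>
      MonoidHom.liftOfRightInverse_comp_apply _ _ _ _ x
    have hsurj : Function.Surjective ψ := by
      intro y
      obtain ⟨a, rfl⟩ := QuotientGroup.mk'_surjective _ y
      obtain ⟨x, rfl⟩ := hf a
      exact ⟨_, hψ x⟩
    have h3 : VI (A ⧸ (N.subgroupOf L).map f) :=
      h2 (L.map (QuotientGroup.mk' N)) (A ⧸ (N.subgroupOf L).map f) ψ hsurj inferInstance hq
    exact VI.comap (QuotientGroup.mk' _) (QuotientGroup.mk'_surjective _) h3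
  · -- the quotient is finite
    rw [not_infinite_iff_finite] at hq
    haveI hfi : ((N.subgroupOf L).map f).FiniteIndex := Subgroup.finiteIndex_of_finite_quotient
    have hfgB : Group.FG ((N.subgroupOf L).map f) := inferInstance
    have hinfB : Infinite ((N.subgroupOf L).map f) := by
      by_contra hcon
      rw [not_infinite_iff_finite] at hcon
      haveI : Finite ((A ⧸ (N.subgroupOf L).map f) × ((N.subgroupOf L).map f)) := inferInstance
      have h3 : Finite A := Finite.of_equiv _ (Subgroup.groupEquivQuotientProdSubgroup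
        (s := (N.subgroupOf L).map f)).symm
      exact h3.false
    let g0 : (L.subgroupOf N) →* L :=
      { toFun := fun x => ⟨((x : N) : G), x.2⟩
        map_one' := rfl
        map_mul' := fun x y => rfl }
    let g1 : (L.subgroupOf N) →* ((N.subgroupOf L).map f) :=
      (f.comp g0).codRestrict _ (fun x => Subgroup.mem_map_of_mem f (Subgroup.mem_subgroupOf.2 (x : N).2))
    have hsurj : Function.Surjective g1 := by
      rintro ⟨b, hb⟩
      obtain ⟨y, hy, rfl⟩ := Subgroup.mem_map.1 hb
      exact ⟨⟨⟨(y : G), Subgroup.mem_subgroupOf.1 hy⟩, Subgroup.mem_subgroupOf.2 y.2⟩, rfl⟩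
    exact VI.of_sub _ hfi (h1 _ _ g1 hsurj hfgB hinfB)

end Pool.SpecDense
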