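import Pool.Agent.Lib.MP_863a8d_al.IV.Fin

/-!
# JOB FC: elements of infinite order with finite conjugacy class

`ell_of_fc`: `H` a group, `z : H` with `z ^ n ≠ 1` for all `n ≥ 1` and `{h z h⁻¹}` finite. Let `C` be the
centraliser of the finite set `Z = {h z h⁻¹}` (a finite intersection of centralisers of elements with
finite conjugacy class, each of finite index: the index of the centraliser of `y` is the size of its
conjugacy class, `MulAction.index_stabilizer` / orbit stabiliser for `ConjAct`; `Subgroup.finiteIndex_iInf`);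
`C` is normal since `Z` is conjugation invariant. Let `L = Subgroup.closure Z` (normal) and `N = C ⊓ L`
(normal). `N` is commutative (elements of `C` commute with the generators of `L`). Some `z ^ k ∈ C`, `k ≥ 1`
(finite index), so `a := z ^ k ∈ N` has infinite order. There is an additive function `ℓ : N → ℝ` with
`ℓ a = 1`: `ℝ` is divisible, hence injective as a `ℤ`-module (`Module.Baer.of_divisible`,
`Module.Baer.injective`, `Module.Injective.out`), applied to `ℤ → Additive N`, `m ↦ m • a` (injective) and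
`ℤ → ℝ`. Extend `ℓ` to `H` by zero outside `N`. For `c ∈ C` and `n ∈ N ≤ L`: `c⁻¹ n c = n` (elements of `L` commute
with elements of `C`). Apply `ell_of_finite`.
`Ell.comap`: `f : G → H` surjective: `(N.comap f, ℓ ∘ f)` (for `away`: lift the finite set `E`; for `bdd`, `away`
use `f (g⁻¹ n g) = (f g)⁻¹ f n (f g)`).
-/

set_option autoImplicit false

namespace Pool.SpecDense

universe u

variable {G : Type u} [Group G]

theorem FC_exists {N : Type*} [AddCommGroup N] (a : N) (ha : ∀ n : ℤ, n • a = 0 → n = 0) :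
    ∃ h : N →+ ℝ, h a = 1 := by
  have hinj : Function.Injective (zmultiplesHom N a) := by
    rw [injective_iff_map_eq_zero]
    intro n hn
    exact ha n (by simpa using hn)
  obtain ⟨h, hh⟩ := (Module.Baer.of_divisible ℝ).extension_property_addMonoidHom (zmultiplesHom N a)
    hinj (Int.castAddHom ℝ)
  refine ⟨h, ?_⟩
  have := DFunLike.congr_fun hh 1
  simpa using this

/-- the centraliser of a finite conjugacy class: a normal subgroup of finite index -/
theorem FC_cent {H : Type u} [Group H] (z : H)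
    (hfin : (Set.range fun h : H => h * z * h⁻¹).Finite) :
    ∃ C : Subgroup H, C.Normal ∧ C.FiniteIndex ∧ ∀ c ∈ C, c * z * c⁻¹ = z := by
  let Z : Set H := Set.range fun h : H => h * z * h⁻¹
  have hZ : ∀ (h : H) (y : Z), h * (y : H) * h⁻¹ ∈ Z := by
    rintro h ⟨_, ⟨k, rfl⟩⟩
    exact ⟨h * k, by simp only [mul_inv_rev]; group⟩
  let act : MulAction H Z :=
    { smul := fun h y => ⟨h * y * h⁻¹, hZ h y⟩
      one_smul := fun y => Subtype.ext (show (1 : H) * y * 1⁻¹ = y by simp)
      mul_smul := fun h k y => Subtype.ext (show (h * k) * (y : H) * (h * k)⁻¹ = h * (k * y * k⁻¹) * h⁻¹ by group) }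
  have hfinZ : Finite Z := hfin
  let f : H →* Equiv.Perm Z := @MulAction.toPermHom H Z _ act
  refine ⟨f.ker, inferInstance, inferInstance, fun c hc => ?_⟩
  have h1 : f c = 1 := hc
  have h2 : f c ⟨z, ⟨1, by simp⟩⟩ = ⟨z, ⟨1, by simp⟩⟩ := by rw [h1]; rfl
  exact congrArg Subtype.val h2

theorem ell_of_fc {H : Type u} [Group H] (z : H) (hz : ∀ n : ℕ, 0 < n → z ^ n ≠ 1)
    (hfin : (Set.range fun h : H => h * z * h⁻¹).Finite) :
    ∃ (N : Subgroup H) (_ : N.Normal) (ℓ : H → ℝ), Ell N ℓ := by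
  classical
  obtain ⟨C, hCn, hCf, hCz⟩ := FC_cent z hfin
  have hcent : ∀ x ∈ C ⊓ Subgroup.centralizer (C : Set H), ∀ c ∈ C, c * x = x * c := fun x hx c hc =>
    Subgroup.mem_centralizer_iff.1 hx.2 c hc
  have hN : (C ⊓ Subgroup.centralizer (C : Set H)).Normal := by
    refine ⟨fun x hx g => ⟨hCn.conj_mem x hx.1 g, ?_⟩⟩
    refine Subgroup.mem_centralizer_iff.2 ?_
    intro c hc
    have h1 : g⁻¹ * c * g ∈ C := by
      have := hCn.conj_mem c hc g⁻¹
      simpa using this
    have h2 := hcent x hx _ h1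
    have h3 : c * (g * x * g⁻¹) = g * ((g⁻¹ * c * g) * x) * g⁻¹ := by group
    rw [h3, h2]
    group
  refine ⟨C ⊓ Subgroup.centralizer (C : Set H), hN, ?_⟩
  obtain ⟨k, hk0, -, hk⟩ := Subgroup.exists_pow_mem_of_index_ne_zero (Subgroup.finiteIndex_iff.1 hCf) z
  have hzc : ∀ c ∈ C, c * z = z * c := fun c hc => by
    have := hCz c hc
    rw [mul_inv_eq_iff_eq_mul] at this
    exact this
  have haN : z ^ k ∈ C ⊓ Subgroup.centralizer (C : Set H) := by
    refine ⟨hk, Subgroup.mem_centralizer_iff.2 ?_⟩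
    intro c hc
    have h1 : Commute c z := hzc c hc
    exact (h1.pow_right k).eq
  let inst : CommGroup ↥(C ⊓ Subgroup.centralizer (C : Set H)) :=
    { (inferInstance : Group ↥(C ⊓ Subgroup.centralizer (C : Set H))) with
      mul_comm := fun x y => Subtype.ext (hcent y.1 y.2 x.1 x.2.1) }
  obtain ⟨h, hh⟩ := FC_exists (Additive.ofMul (⟨z ^ k, haN⟩ : ↥(C ⊓ Subgroup.centralizer (C : Set H)))) (by
    intro n hn
    by_contra hn0
    have h1 : (z ^ k) ^ n = 1 := congrArg (fun x : ↥(C ⊓ Subgroup.centralizer (C : Set H)) => (x : H)) hn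
    have h2 : IsOfFinOrder (z ^ k) := isOfFinOrder_iff_zpow_eq_one.2 ⟨n, hn0, h1⟩
    obtain ⟨m, hm0, hm⟩ := isOfFinOrder_iff_pow_eq_one.1 h2
    rw [← pow_mul] at hm
    exact hz (k * m) (Nat.mul_pos hk0 hm0) hm)
  refine ⟨fun x => if hx : x ∈ C ⊓ Subgroup.centralizer (C : Set H) then h (Additive.ofMul ⟨x, hx⟩) else 0, ?_⟩
  refine ell_of_finite C ?_ ?_ ?_
  · intro a ha b hb
    have hab : a * b ∈ C ⊓ Subgroup.centralizer (C : Set H) := Subgroup.mul_mem _ ha hb
    show (if hx : a * b ∈ C ⊓ Subgroup.centralizer (C : Set H) then h (Additive.ofMul ⟨_, hx⟩) else 0) =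
      (if hx : a ∈ C ⊓ Subgroup.centralizer (C : Set H) then h (Additive.ofMul ⟨_, hx⟩) else 0) +
      (if hx : b ∈ C ⊓ Subgroup.centralizer (C : Set H) then h (Additive.ofMul ⟨_, hx⟩) else 0)
    rw [dif_pos ha, dif_pos hb, dif_pos hab]
    exact map_add h (Additive.ofMul ⟨a, ha⟩) (Additive.ofMul ⟨b, hb⟩)
  · intro c hc x hx
    have e : c⁻¹ * x * c = x := by
      rw [mul_assoc, ← hcent x hx c hc, inv_mul_cancel_left]
    simp only [e]
  · refine ⟨z ^ k, haN, ?_⟩
    show (if hx : z ^ k ∈ C ⊓ Subgroup.centralizer (C : Set H) then h (Additive.ofMul ⟨_, hx⟩) else 0) ≠ 0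
    rw [dif_pos haN, hh]
    norm_num

theorem Ell.comap {H : Type u} [Group H] (f : G →* H) (hf : Function.Surjective f)
    {N : Subgroup H} {ℓ : H → ℝ} (h : Ell N ℓ) : Ell (N.comap f) (fun g => ℓ (f g)) := by
  classical
  have e : ∀ g n : G, f (g⁻¹ * n * g) = (f g)⁻¹ * f n * f g := fun g n => by
    rw [map_mul, map_mul, map_inv]
  refine ⟨?_, ?_, ?_⟩
  · intro a ha b hb
    show ℓ (f (a * b)) = ℓ (f a) + ℓ (f b)
    rw [map_mul]
    exact h.add _ ha _ hb
  · intro n hn
    obtain ⟨C, hC⟩ := h.bdd (f n) hn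
    refine ⟨C, fun g => ?_⟩
    rw [e]
    exact hC (f g)
  · obtain ⟨E, c, hE, hc, hE2⟩ := h.away
    choose s hs using hf
    refine ⟨E.image s, c, ?_, hc, fun g => ?_⟩
    · intro n hn
      obtain ⟨m, hm, rfl⟩ := Finset.mem_image.1 hn
      show f (s m) ∈ N
      rw [hs m]
      exact hE m hm
    · obtain ⟨m, hm, hmc⟩ := hE2 (f g)
      refine ⟨s m, Finset.mem_image_of_mem s hm, ?_⟩
      rw [e, hs m]
      exact hmc

end Pool.SpecDense
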