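import Pool.Agent.Lib.MP_863a8d_al.IV.Defs
import Pool.Agent.Lib.MP_863a8d_al.IV.EA

/-!
# JOB Fin: homomorphisms with a finite orbit under conjugation

`ell_of_finite`: `N` normal, `C` a subgroup of finite index, `ℓ` additive on `N` and invariant under
conjugation by elements of `C`, `ℓ a ≠ 0` for some `a ∈ N`. Then `Ell N ℓ`: let `g₁, ..., g_k` be representatives
of the finite set of right cosets `g C` (every `g : G` is `g_i * c` with `c ∈ C`; e.g. the finite set of all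
`Quotient.out x`, `x : G ⧸ C`). For `g = g_i c`: `g⁻¹ n g = c⁻¹ (g_i⁻¹ n g_i) c`, so
`ℓ (g⁻¹ n g) = ℓ (g_i⁻¹ n g_i)`: finitely many values, `bdd`. `away`: `E = {g_i a g_i⁻¹}`, `c = |ℓ a|`: for
`g = g_i c`, `n = g_i a g_i⁻¹`: `g⁻¹ n g = c⁻¹ a c`, `ℓ = ℓ a`.
`ell_of_VI`: `(K, ℓ)` from `VI G`; `N = C = K.normalCore` (finite index, normal). For `n ∈ N`, `c ∈ N`:
`ℓ (c⁻¹ n c) = ℓ c⁻¹ + ℓ n + ℓ c = ℓ n`. Some `a ∈ K` has `ℓ a ≠ 0`; some power `a ^ m ∈ N`, `m ≠ 0`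
(finite index), `ℓ (a ^ m) = m ℓ a ≠ 0`.
-/

set_option autoImplicit false

namespace Pool.SpecDense

universe u

variable {G : Type u} [Group G]

theorem ell_of_finite {N : Subgroup G} [N.Normal] (C : Subgroup G) [C.FiniteIndex] {ℓ : G → ℝ}
    (hadd : ∀ a ∈ N, ∀ b ∈ N, ℓ (a * b) = ℓ a + ℓ b)
    (hinv : ∀ c ∈ C, ∀ n ∈ N, ℓ (c⁻¹ * n * c) = ℓ n) (hne : ∃ a ∈ N, ℓ a ≠ 0) : Ell N ℓ := by
  classical
  haveI : Fintype (G ⧸ C) := Fintype.ofFinite _
  set S : Finset G := Finset.univ.image (fun x : G ⧸ C => Quotient.out x) with hS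
  have hrep : ∀ g : G, ∃ s ∈ S, s⁻¹ * g ∈ C := by
    intro g
    refine ⟨Quotient.out (g : G ⧸ C), Finset.mem_image_of_mem _ (Finset.mem_univ _), ?_⟩
    rw [← QuotientGroup.eq, QuotientGroup.out_eq']
  have hconj : ∀ n ∈ N, ∀ g : G, g⁻¹ * n * g ∈ N := by
    intro n hn g
    have := (inferInstance : N.Normal).conj_mem n hn g⁻¹
    simpa using this
  refine ⟨hadd, fun n hn => ⟨∑ s ∈ S, |ℓ (s⁻¹ * n * s)|, fun g => ?_⟩, ?_⟩
  · obtain ⟨s, hs, hsg⟩ := hrep g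
    have h1 : g⁻¹ * n * g = (s⁻¹ * g)⁻¹ * (s⁻¹ * n * s) * (s⁻¹ * g) := by group
    rw [h1, hinv _ hsg _ (hconj n hn s)]
    exact Finset.single_le_sum (f := fun s => |ℓ (s⁻¹ * n * s)|) (fun _ _ => abs_nonneg _) hs
  · obtain ⟨a, ha, ha0⟩ := hne
    refine ⟨S.image fun s => s * a * s⁻¹, |ℓ a|, ?_, abs_pos.2 ha0, fun g => ?_⟩
    · intro n hn
      obtain ⟨s, _, rfl⟩ := Finset.mem_image.1 hn
      exact (inferInstance : N.Normal).conj_mem a ha s
    · obtain ⟨s, hs, hsg⟩ := hrep g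
      refine ⟨s * a * s⁻¹, Finset.mem_image_of_mem _ hs, ?_⟩
      have h1 : g⁻¹ * (s * a * s⁻¹) * g = (s⁻¹ * g)⁻¹ * a * (s⁻¹ * g) := by group
      rw [h1, hinv _ hsg _ ha]

theorem ell_of_VI (h : VI G) : ∃ (N : Subgroup G) (_ : N.Normal) (ℓ : G → ℝ), Ell N ℓ := by
  obtain ⟨K, ℓ, hK, hadd, a, ha, ha0⟩ := h
  have hle : K.normalCore ≤ K := K.normalCore_le
  have h1 : ℓ 1 = 0 := by
    have h2 := hadd 1 K.one_mem 1 K.one_mem
    rw [mul_one] at h2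
    linarith
  have hpow : ∀ m : ℕ, ℓ (a ^ m) = m * ℓ a := by
    intro m
    induction m with
    | zero => simp [h1]
    | succ m ih =>
      rw [pow_succ, hadd _ (K.pow_mem ha m) _ ha, ih]
      push_cast
      ring
  refine ⟨K.normalCore, inferInstance, ℓ, ell_of_finite K.normalCore
    (fun a ha b hb => hadd a (hle ha) b (hle hb)) ?_ ?_⟩
  · intro c hc n hn
    have hcK := hle hc
    have hnK := hle hn
    rw [hadd _ (K.mul_mem (K.inv_mem hcK) hnK) _ hcK, hadd _ (K.inv_mem hcK) _ hnK]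
    have h2 := hadd _ (K.inv_mem hcK) _ hcK
    rw [inv_mul_cancel, h1] at h2
    linarith
  · haveI : K.normalCore.FiniteIndex := inferInstance
    obtain ⟨m, hm, -, hmem⟩ := Subgroup.exists_pow_mem_of_index_ne_zero
      (Subgroup.FiniteIndex.index_ne_zero (H := K.normalCore)) a
    refine ⟨a ^ m, hmem, ?_⟩
    rw [hpow]
    have : (m : ℝ) ≠ 0 := by exact_mod_cast hm.ne'
    exact mul_ne_zero this ha0

end Pool.SpecDense
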