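import Pool.Agent.Lib.MP_863a8d_al.IV.Main
import Pool.Agent.Lib.MP_863a8d_al.IV.EA2
import Pool.Agent.Lib.MP_863a8d_al.IV.EA3
import Pool.Agent.Lib.MP_863a8d_al.IV.FC
import Pool.Agent.Lib.MP_863a8d_al.SpecSet

/-!
# Consequences of the criterion
-/

set_option autoImplicit false

namespace Pool.SpecDense

universe u

theorem subQ_class : EAClass.{u} (fun G [Group G] => SubQ G) where
  finite := fun G _ h => SubQ.finite G h
  comm := fun G _ h => SubQ.comm G h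
  sub := fun G H _ _ f hf h => SubQ.sub G H f hf h
  quot := fun G H _ _ f hf h => SubQ.quot G H f hf h
  ext := fun G _ N _ h1 h2 => SubQ.ext G N h1 h2
  union := fun G _ D h1 h2 h3 h4 => SubQ.union G D h1 h2 h3 h4

theorem VI_of_elemAmen {G : Type u} [Group G] (h : ElemAmen G) (hfg : Group.FG G)
    (hinf : Infinite G) : VI G := by
  have h1 : SubQ G := h _ subQ_class
  exact h1 ⊤ G (⊤ : Subgroup G).subtype (fun g => ⟨⟨g, Subgroup.mem_top g⟩, rfl⟩) hfg hinf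

variable {G : Type u} [Group G]

/-- the spectrum contains an interval at one -/
theorem interval_Sp (W : Walk G) (hG : Folner G) {N : Subgroup G} [N.Normal] {ℓ : G → ℝ}
    (hℓ : Ell N ℓ) : ∃ δ : ℝ, 0 < δ ∧ ∀ t : ℝ, 1 - δ ≤ t → t ≤ 1 → (t : ℂ) ∈ W.Sp := by
  obtain ⟨δ, hδ, h⟩ := IV.interval W hG hℓ
  refine ⟨δ, hδ, fun t ht ht1 => ?_⟩
  have h1 : (1 - t) ∈ W.spec := h ⟨by linarith, by linarith⟩
  rw [W.mem_spec_iff, sub_sub_cancel] at h1
  exact h1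

theorem interval_elemAmen (W : Walk G) (hG : Folner G) [Infinite G] (h : ElemAmen G) :
    ∃ δ : ℝ, 0 < δ ∧ ∀ t : ℝ, 1 - δ ≤ t → t ≤ 1 → (t : ℂ) ∈ W.Sp := by
  have hfg : Group.FG G := ⟨⟨W.S, W.gen⟩⟩
  obtain ⟨N, hN, ℓ, hℓ⟩ := ell_of_VI (VI_of_elemAmen h hfg inferInstance)
  exact interval_Sp W hG hℓ

theorem interval_fc (W : Walk G) (hG : Folner G) {H : Type u} [Group H] (f : G →* H)
    (hf : Function.Surjective f) (z : H) (hz : ∀ n : ℕ, 0 < n → z ^ n ≠ 1)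
    (hfin : (Set.range fun h : H => h * z * h⁻¹).Finite) :
    ∃ δ : ℝ, 0 < δ ∧ ∀ t : ℝ, 1 - δ ≤ t → t ≤ 1 → (t : ℂ) ∈ W.Sp := by
  obtain ⟨N, hN, ℓ, hℓ⟩ := ell_of_fc z hz hfin
  exact interval_Sp W hG (hℓ.comap f hf)

theorem not_td {T : Set ℂ} {δ : ℝ} (hδ : 0 < δ)
    (h : ∀ t : ℝ, 1 - δ ≤ t → t ≤ 1 → (t : ℂ) ∈ T) : ¬ IsTotallyDisconnected T := by
  intro htd
  have hpre : IsPreconnected ((fun t : ℝ => (t : ℂ)) '' Set.Icc (1 - δ) 1) :=
    isPreconnected_Icc.image _ Complex.continuous_ofReal.continuousOn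
  have hsub := htd _ (by
    rintro _ ⟨t, ht, rfl⟩
    exact h t ht.1 ht.2) hpre
  have h3 := hsub (Set.mem_image_of_mem _ (Set.left_mem_Icc.2 (by linarith)))
    (Set.mem_image_of_mem _ (Set.right_mem_Icc.2 (by linarith)))
  have h4 : (1 - δ : ℝ) = 1 := Complex.ofReal_injective h3
  linarith

end Pool.SpecDense
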