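import Pool.Agent.Lib.MP_863a8d_al.IV.Defs

/-!
# JOB Fol: an almost invariant finitely supported function on `G ⧸ N`

Take a Folner set `F` of `G` for the finite set `S` and `ε` (`hG S ε`): `F` nonempty,
`#(s F \ F) < ε #F` for `s ∈ S`. Let `F_x = #{g ∈ F | (g : G ⧸ N) = x}` and `h x = sqrt (F_x / #F)`; the
support is the image of `F` in `G ⧸ N`. Then `∑ x, h x ² = 1` (fibre count, `Finset.card_eq_sum_card_fiberwise`).
For `s ∈ S`, with `x' = s⁻¹ x`: `F_{x'} = #{g ∈ sF | (g : G ⧸ N) = x}` and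
`1 - ∑ x, h x h x' = (1/2) ∑ x, (h x - h x')² ≤ (1/2) ∑ x, |h x ² - h x' ²|` over a finite set containing the
support and its image under `s` (both `∑ h x ²` and `∑ h x' ²` equal `1` there;
`(a - b)² ≤ |a² - b²|` for `a, b ≥ 0`), and `∑ x, |F_x - F_{x'}| ≤ #(F \ sF) + #(sF \ F) = 2 #(sF \ F)`
(as `#F = #sF`). Hence `1 - ∑ x, h x h x' ≤ #(sF \ F) / #F ≤ ε`.
-/

set_option autoImplicit false

namespace Pool.SpecDense.IV

universe u

variable {G : Type u} [Group G]

theorem exists_fol (N : Subgroup G) [N.Normal] (hG : Folner G) (S : Finset G) {ε : ℝ}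
    (hε : 0 < ε) :
    ∃ h : (G ⧸ N) →₀ ℝ, (∑ x ∈ h.support, h x ^ 2 = 1) ∧ (∀ x, 0 ≤ h x) ∧
      ∀ s ∈ S, 1 - ε ≤ ∑ x ∈ h.support, h x * h ((s : G ⧸ N)⁻¹ * x) := by
  classical
  obtain ⟨F, hF, hFS⟩ := hG S ε hε
  have hc : (0 : ℝ) < F.card := by exact_mod_cast hF.card_pos
  let n : G ⧸ N → ℕ := fun x => (F.filter (fun g : G => (g : G ⧸ N) = x)).card
  let T : Finset (G ⧸ N) := F.image (fun g : G => (g : G ⧸ N))
  have hn0 : ∀ x, x ∉ T → n x = 0 := by
    intro x hx
    show (F.filter (fun g : G => (g : G ⧸ N) = x)).card = 0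
    rw [Finset.card_eq_zero, Finset.filter_eq_empty_iff]
    intro g hg hgx
    exact hx (Finset.mem_image.2 ⟨g, hg, hgx⟩)
  let h : (G ⧸ N) →₀ ℝ := Finsupp.onFinset T (fun x => Real.sqrt ((n x : ℝ) / F.card)) (by
    intro x hx
    by_contra hxT
    apply hx
    rw [hn0 x hxT]
    simp)
  have hh : ∀ x, h x = Real.sqrt ((n x : ℝ) / F.card) := fun x => rfl
  have hsub : h.support ⊆ T := Finsupp.support_onFinset_subset
  have hsum : ∀ f : (G ⧸ N) → ℝ, (∀ x, h x = 0 → f x = 0) → ∑ x ∈ h.support, f x = ∑ x ∈ T, f x := by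
    intro f hf
    refine Finset.sum_subset hsub fun x _ hx => hf x ?_
    exact Finsupp.notMem_support_iff.1 hx
  refine ⟨h, ?_, fun x => ?_, fun s hs => ?_⟩
  · rw [hsum (fun x => h x ^ 2) (fun x hx => by simp [hx])]
    have h1 : ∀ x ∈ T, h x ^ 2 = (n x : ℝ) / F.card := by
      intro x _
      rw [hh, Real.sq_sqrt (by positivity)]
    rw [Finset.sum_congr rfl h1, ← Finset.sum_div]
    have h2 : F.card = ∑ x ∈ T, n x :=
      Finset.card_eq_sum_card_fiberwise (f := fun g : G => (g : G ⧸ N)) (t := T)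
        (fun g hg => Finset.mem_coe.2 (Finset.mem_image.2 ⟨g, Finset.mem_coe.1 hg, rfl⟩))
    have h3 : ∑ x ∈ T, (n x : ℝ) = (F.card : ℝ) := by
      rw [h2]
      push_cast
      rfl
    rw [h3, div_self hc.ne']
  · rw [hh]
    exact Real.sqrt_nonneg _
  · rw [hsum (fun x => h x * h ((s : G ⧸ N)⁻¹ * x)) (fun x hx => by simp [hx])]
    let sF : Finset G := F.image (fun g => s * g)
    let D : Finset G := sF ∩ F
    let m : G ⧸ N → ℕ := fun x => (D.filter (fun g : G => (g : G ⧸ N) = x)).card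
    have hm1 : ∀ x, m x ≤ n x := by
      intro x
      exact Finset.card_le_card (Finset.filter_subset_filter _ Finset.inter_subset_right)
    have hm2 : ∀ x, m x ≤ n ((s : G ⧸ N)⁻¹ * x) := by
      intro x
      have h1 : D.filter (fun g : G => (g : G ⧸ N) = x) ⊆
          (F.filter (fun g : G => (g : G ⧸ N) = (s : G ⧸ N)⁻¹ * x)).image (fun g => s * g) := by
        intro g hg
        rw [Finset.mem_filter, Finset.mem_inter] at hg
        obtain ⟨⟨hg1, _⟩, hg3⟩ := hg
        obtain ⟨g', hg', rfl⟩ := Finset.mem_image.1 hg1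
        refine Finset.mem_image.2 ⟨g', Finset.mem_filter.2 ⟨hg', ?_⟩, rfl⟩
        rw [← hg3, QuotientGroup.mk_mul, inv_mul_cancel_left]
      exact (Finset.card_le_card h1).trans Finset.card_image_le
    have hterm : ∀ x ∈ T, (m x : ℝ) / F.card ≤ h x * h ((s : G ⧸ N)⁻¹ * x) := by
      intro x _
      rw [hh, hh]
      have e1 : Real.sqrt ((m x : ℝ) / F.card) * Real.sqrt ((m x : ℝ) / F.card) = (m x : ℝ) / F.card :=
        Real.mul_self_sqrt (by positivity)
      rw [← e1]
      have i1 : (m x : ℝ) ≤ n x := by exact_mod_cast hm1 x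
      have i2 : (m x : ℝ) ≤ n ((s : G ⧸ N)⁻¹ * x) := by exact_mod_cast hm2 x
      exact mul_le_mul (Real.sqrt_le_sqrt (div_le_div_of_nonneg_right i1 hc.le))
        (Real.sqrt_le_sqrt (div_le_div_of_nonneg_right i2 hc.le)) (Real.sqrt_nonneg _) (Real.sqrt_nonneg _)
    refine le_trans ?_ (Finset.sum_le_sum hterm)
    rw [← Finset.sum_div]
    have h2 : D.card = ∑ x ∈ T, m x :=
      Finset.card_eq_sum_card_fiberwise (f := fun g : G => (g : G ⧸ N)) (t := T)
        (fun g hg => Finset.mem_coe.2 (Finset.mem_image.2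
          ⟨g, (Finset.mem_inter.1 (Finset.mem_coe.1 hg)).2, rfl⟩))
    have h3 : ∑ x ∈ T, (m x : ℝ) = (D.card : ℝ) := by
      rw [h2]
      push_cast
      rfl
    have h4 : (sF \ F).card + D.card = F.card := by
      have := Finset.card_sdiff_add_card_inter sF F
      rw [Finset.card_image_of_injective F (mul_right_injective s)] at this
      exact this
    have h5 : ((sF \ F).card : ℝ) < ε * F.card := by
      have := hFS s hs
      have e : ((fun x => s * x) '' (F : Set G)) \ (F : Set G) = ((sF \ F : Finset G) : Set G) := by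
        rw [Finset.coe_sdiff, Finset.coe_image]
      rw [e, Set.ncard_coe_finset] at this
      exact this
    have h6 : ((sF \ F).card : ℝ) + D.card = F.card := by exact_mod_cast h4
    rw [h3, le_div_iff₀ hc]
    linarith

end Pool.SpecDense.IV
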