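import Pool.Agent.Lib.MP_863a8d_al.IV.Basic

/-!
# JOB Lip: Lipschitz dependence on `t` for functions supported in a fixed finite set

For `s ∈ W.S` and `x ∈ F` let `C_{s,x}` be a bound for `|ℓ (q⁻¹ co(s, x) q)|` over all `q` (`hbdd`, since
`co s x ∈ N`: `co_mem`), `C` the sum of all `|C_{s,x}|` over `s ∈ W.S`, `x ∈ F`. Since
`‖exp (i a) - exp (i b)‖ ≤ |a - b|` (Mathlib: `Real.norm_exp_I_mul_ofReal_sub_one_le` or similar),
`‖ph t s x - ph t' s x‖ ≤ |t - t'| C` for `x ∈ F`, and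
`|amp t c s - amp t' c s| ≤ |t - t'| C ∑ x ∈ F, ‖c x‖ ‖c (s⁻¹ x)‖ ≤ |t - t'| C nsq c` (`sum_mul_shift_le`).
Average over `s`.
-/

set_option autoImplicit false

open scoped ComplexConjugate

namespace Pool.SpecDense.IV

universe u

variable {G : Type u} [Group G] {N : Subgroup G} [N.Normal]

private theorem lip_exp (a b : ℝ) :
    ‖Complex.exp ((a : ℂ) * Complex.I) - Complex.exp ((b : ℂ) * Complex.I)‖ ≤ |a - b| := by
  have h1 : Complex.exp ((a : ℂ) * Complex.I) - Complex.exp ((b : ℂ) * Complex.I) =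
      Complex.exp ((b : ℂ) * Complex.I) * (Complex.exp (Complex.I * ((a - b : ℝ) : ℂ)) - 1) := by
    rw [mul_sub, ← Complex.exp_add, mul_one]
    congr 2
    push_cast
    ring
  rw [h1, norm_mul, Complex.norm_exp_ofReal_mul_I, one_mul]
  exact Real.norm_exp_I_mul_ofReal_sub_one_le

theorem lip (W : Walk G) {ℓ : G → ℝ} (hbdd : ∀ n ∈ N, ∃ C : ℝ, ∀ g : G, |ℓ (g⁻¹ * n * g)| ≤ C)
    (F : Finset (G ⧸ N)) :
    ∃ C : ℝ, 0 ≤ C ∧ ∀ (t t' : ℝ) (q : G) (c : G ⧸ N →₀ ℂ), c.support ⊆ F →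
      |En N W ℓ t q c - En N W ℓ t' q c| ≤ C * |t - t'| * nsq c := by
  have hch : ∀ (s : G) (x : G ⧸ N), ∃ C : ℝ, ∀ g : G, |ℓ (g⁻¹ * co N s x * g)| ≤ C :=
    fun s x => hbdd _ (co_mem N s x)
  choose Cf hCf using hch
  set C : ℝ := ∑ s ∈ W.S, ∑ x ∈ F, |Cf s x| with hC
  have hC0 : 0 ≤ C := Finset.sum_nonneg fun _ _ => Finset.sum_nonneg fun _ _ => abs_nonneg _
  have hle : ∀ s ∈ W.S, ∀ x ∈ F, ∀ q : G, |ℓ (q⁻¹ * co N s x * q)| ≤ C := by
    intro s hs x hx q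
    refine (hCf s x q).trans ((le_abs_self _).trans ?_)
    refine (Finset.single_le_sum (f := fun x => |Cf s x|) (fun _ _ => abs_nonneg _) hx).trans ?_
    exact Finset.single_le_sum (f := fun s => ∑ x ∈ F, |Cf s x|)
      (fun _ _ => Finset.sum_nonneg fun _ _ => abs_nonneg _) hs
  refine ⟨C, hC0, fun t t' q c hc => ?_⟩
  have hamp : ∀ s ∈ W.S, |amp N ℓ t' q c s - amp N ℓ t q c s| ≤ C * |t - t'| * nsq c := by
    intro s hs
    rw [amp_eq ℓ t' q c s F hc, amp_eq ℓ t q c s F hc, ← Finset.sum_sub_distrib]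
    refine (Finset.abs_sum_le_sum_abs _ _).trans ?_
    have h1 : ∀ x ∈ F, |(conj (c x) * (ph N ℓ t' q s x * c ((s : G ⧸ N)⁻¹ * x))).re -
        (conj (c x) * (ph N ℓ t q s x * c ((s : G ⧸ N)⁻¹ * x))).re| ≤
        C * |t - t'| * (‖c x‖ * ‖c ((s : G ⧸ N)⁻¹ * x)‖) := by
      intro x hx
      rw [← Complex.sub_re]
      refine (Complex.abs_re_le_norm _).trans ?_
      have h2 : conj (c x) * (ph N ℓ t' q s x * c ((s : G ⧸ N)⁻¹ * x)) -
          conj (c x) * (ph N ℓ t q s x * c ((s : G ⧸ N)⁻¹ * x)) =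
          conj (c x) * ((ph N ℓ t' q s x - ph N ℓ t q s x) * c ((s : G ⧸ N)⁻¹ * x)) := by ring
      rw [h2, norm_mul, norm_mul, RCLike.norm_conj]
      have h3 : ‖ph N ℓ t' q s x - ph N ℓ t q s x‖ ≤ C * |t - t'| := by
        unfold ph
        refine (lip_exp _ _).trans ?_
        have h4 : -(t' * ℓ (q⁻¹ * co N s x * q)) - -(t * ℓ (q⁻¹ * co N s x * q)) =
            (t - t') * ℓ (q⁻¹ * co N s x * q) := by ring
        rw [h4, abs_mul, mul_comm]
        exact mul_le_mul_of_nonneg_right (hle s hs x hx q) (abs_nonneg _)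
      calc ‖c x‖ * (‖ph N ℓ t' q s x - ph N ℓ t q s x‖ * ‖c ((s : G ⧸ N)⁻¹ * x)‖)
          ≤ ‖c x‖ * (C * |t - t'| * ‖c ((s : G ⧸ N)⁻¹ * x)‖) := by gcongr
        _ = C * |t - t'| * (‖c x‖ * ‖c ((s : G ⧸ N)⁻¹ * x)‖) := by ring
    refine (Finset.sum_le_sum h1).trans ?_
    rw [← Finset.mul_sum]
    exact mul_le_mul_of_nonneg_left (sum_mul_shift_le c _ F) (mul_nonneg hC0 (abs_nonneg _))
  have hE : En N W ℓ t q c - En N W ℓ t' q c =
      W.E (fun s => amp N ℓ t' q c s - amp N ℓ t q c s) := by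
    unfold En
    rw [W.E_sub]
    ring
  rw [hE, abs_le]
  constructor
  · have h5 := W.E_mono (f := fun _ => -(C * |t - t'| * nsq c))
      (f' := fun s => amp N ℓ t' q c s - amp N ℓ t q c s) (fun s hs => (abs_le.1 (hamp s hs)).1)
    rwa [W.E_const] at h5
  · have h5 := W.E_mono (f := fun s => amp N ℓ t' q c s - amp N ℓ t q c s)
      (f' := fun _ => (C * |t - t'| * nsq c)) (fun s hs => (abs_le.1 (hamp s hs)).2)
    rwa [W.E_const] at h5

end Pool.SpecDense.IV
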