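import Pool.Agent.Lib.MP_863a8d_al.IV.Basic

/-!
# JOB LocA: localisation, first step

For `r` in `Q = G ⧸ N` let `c_r x = c x * h (x r)` (finitely supported, e.g. `Finsupp.onFinset c.support`
or `c.mapRange`-free: `Finsupp.zipWith`; any construction). Only finitely many `c_r` are nonzero:
all `r` with `c_r ≠ 0` lie in the finite set `R = {x⁻¹ z | x ∈ c.support, z ∈ h.support}`; put
everything over a finite `R`. For `x ∈ c.support`: `∑ r ∈ R, h (x r)² = 1` (substitute `z = x r`,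
all `z ∈ h.support` occur). Hence `∑ r ∈ R, nsq c_r = nsq c`.
With `ω s = ∑ z ∈ h.support, h z * h (s⁻¹ z)`: for `x ∈ c.support`, `∑ r ∈ R, h (x r) h (s⁻¹ x r) = ω s`, so
`∑ r ∈ R, amp c_r s = ω s * amp c s` (exchange the two finite sums; `amp_eq` with the common finite set
`c.support`). Therefore
`∑ r ∈ R, En c_r = nsq c - W.E (fun s => ω s * amp c s) = En c + W.E (fun s => (1 - ω s) * amp c s)
  ≤ En c + ε * nsq c`
since `ω s ≤ 1` (Cauchy Schwarz, `∑ h² = 1`; here `ω s ≤ 1` follows from `h z h z' ≤ (h z² + h z'²)/2`) and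
`1 - ω s ≤ ε`, `amp c s ≤ nsq c` (`abs_amp_le`).
If every `r ∈ R` with `c_r ≠ 0` had `En c_r > lam * nsq c_r`, `lam = En c / nsq c + ε`, then
(`c_r = 0` gives `En = nsq = 0`; some `c_r ≠ 0` because `∑ nsq c_r = nsq c > 0`) summing gives a
contradiction.
-/

set_option autoImplicit false

open scoped ComplexConjugate

namespace Pool.SpecDense.IV

universe u

variable {G : Type u} [Group G] {N : Subgroup G} [N.Normal]

/-- the localised function -/
private noncomputable def locA_cr (c : G ⧸ N →₀ ℂ) (h : (G ⧸ N) →₀ ℝ) (r : G ⧸ N) : G ⧸ N →₀ ℂ :=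
  Finsupp.onFinset c.support (fun x => c x * (h (x * r) : ℂ)) (fun x hx => by
    rw [Finsupp.mem_support_iff]
    exact fun h0 => hx (by rw [h0, zero_mul]))

private theorem locA_cr_apply (c : G ⧸ N →₀ ℂ) (h : (G ⧸ N) →₀ ℝ) (r x : G ⧸ N) :
    locA_cr c h r x = c x * (h (x * r) : ℂ) := rfl

private theorem locA_cr_supp (c : G ⧸ N →₀ ℂ) (h : (G ⧸ N) →₀ ℝ) (r : G ⧸ N) :
    (locA_cr c h r).support ⊆ c.support := Finsupp.support_onFinset_subset

private theorem locA_sum (h : (G ⧸ N) →₀ ℝ) (k : G ⧸ N → ℝ) (x : G ⧸ N) (R : Finset (G ⧸ N))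
    (hR : ∀ z ∈ h.support, x⁻¹ * z ∈ R) :
    ∑ r ∈ R, h (x * r) * k (x * r) = ∑ z ∈ h.support, h z * k z := by
  classical
  have h1 : ∑ z ∈ R.image (fun r => x * r), h z * k z = ∑ r ∈ R, h (x * r) * k (x * r) :=
    Finset.sum_image (fun a _ b _ hab => mul_left_cancel hab)
  rw [← h1]
  symm
  refine Finset.sum_subset (fun z hz => ?_) (fun z _ hz => ?_)
  · exact Finset.mem_image.2 ⟨x⁻¹ * z, hR z hz, mul_inv_cancel_left x z⟩
  · rw [Finsupp.notMem_support_iff.1 hz, zero_mul]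

private theorem locA_omega (h : (G ⧸ N) →₀ ℝ) (hh : ∑ x ∈ h.support, h x ^ 2 = 1) (z : G ⧸ N) :
    ∑ x ∈ h.support, h x * h (z * x) ≤ 1 := by
  classical
  have h1 : ∑ x ∈ h.support, h (z * x) ^ 2 ≤ 1 := by
    have h2 : ∑ y ∈ h.support.image (fun x => z * x), h y ^ 2 = ∑ x ∈ h.support, h (z * x) ^ 2 :=
      Finset.sum_image (fun a _ b _ hab => mul_left_cancel hab)
    rw [← h2, ← hh]
    have h3 : ∑ y ∈ h.support.image (fun x => z * x), h y ^ 2 =
        ∑ y ∈ h.support.image (fun x => z * x) ∩ h.support, h y ^ 2 := by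
      symm
      refine Finset.sum_subset Finset.inter_subset_left (fun y hy hy' => ?_)
      have : y ∉ h.support := fun hc => hy' (Finset.mem_inter.2 ⟨hy, hc⟩)
      rw [Finsupp.notMem_support_iff.1 this]
      norm_num
    rw [h3]
    exact Finset.sum_le_sum_of_subset_of_nonneg Finset.inter_subset_right
      (fun _ _ _ => by positivity)
  have h4 : ∑ x ∈ h.support, h x * h (z * x) ≤ ∑ x ∈ h.support, (h x ^ 2 + h (z * x) ^ 2) / 2 :=
    Finset.sum_le_sum fun x _ => by nlinarith [sq_nonneg (h x - h (z * x))]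
  rw [← Finset.sum_div, Finset.sum_add_distrib, hh] at h4
  linarith

private theorem locA_nsq (c : G ⧸ N →₀ ℂ) (h : (G ⧸ N) →₀ ℝ) (hh : ∑ x ∈ h.support, h x ^ 2 = 1)
    (R : Finset (G ⧸ N)) (hR : ∀ x ∈ c.support, ∀ z ∈ h.support, x⁻¹ * z ∈ R) :
    ∑ r ∈ R, nsq (locA_cr c h r) = nsq c := by
  have h1 : ∀ r ∈ R, nsq (locA_cr c h r) =
      ∑ x ∈ c.support, ‖c x‖ ^ 2 * (h (x * r) * h (x * r)) := by
    intro r _
    rw [nsq_eq _ _ (locA_cr_supp c h r)]
    refine Finset.sum_congr rfl fun x _ => ?_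
    rw [locA_cr_apply, norm_mul, mul_pow, Complex.norm_real, Real.norm_eq_abs, sq_abs]
    ring
  rw [Finset.sum_congr rfl h1, Finset.sum_comm]
  unfold nsq
  refine Finset.sum_congr rfl fun x hx => ?_
  rw [← Finset.mul_sum, locA_sum h (fun z => h z) x R (hR x hx)]
  have h2 : ∑ z ∈ h.support, h z * h z = 1 := by
    rw [← hh]
    exact Finset.sum_congr rfl fun z _ => by ring
  rw [h2, mul_one]

private theorem locA_amp (ℓ : G → ℝ) (t : ℝ) (q : G) (c : G ⧸ N →₀ ℂ) (h : (G ⧸ N) →₀ ℝ)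
    (R : Finset (G ⧸ N)) (hR : ∀ x ∈ c.support, ∀ z ∈ h.support, x⁻¹ * z ∈ R) (s : G) :
    ∑ r ∈ R, amp N ℓ t q (locA_cr c h r) s =
      (∑ x ∈ h.support, h x * h ((s : G ⧸ N)⁻¹ * x)) * amp N ℓ t q c s := by
  have h1 : ∀ r ∈ R, amp N ℓ t q (locA_cr c h r) s =
      ∑ x ∈ c.support, (conj (c x) * (ph N ℓ t q s x * c ((s : G ⧸ N)⁻¹ * x))).re *
        (h (x * r) * h ((s : G ⧸ N)⁻¹ * (x * r))) := by
    intro r _
    rw [amp_eq ℓ t q _ s _ (locA_cr_supp c h r)]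
    refine Finset.sum_congr rfl fun x _ => ?_
    rw [locA_cr_apply, locA_cr_apply, map_mul, Complex.conj_ofReal, mul_assoc ((s : G ⧸ N)⁻¹) x r]
    have h2 : conj (c x) * (h (x * r) : ℂ) * (ph N ℓ t q s x * (c ((s : G ⧸ N)⁻¹ * x) *
        (h ((s : G ⧸ N)⁻¹ * (x * r)) : ℂ))) =
        (conj (c x) * (ph N ℓ t q s x * c ((s : G ⧸ N)⁻¹ * x))) *
          ((h (x * r) * h ((s : G ⧸ N)⁻¹ * (x * r)) : ℝ) : ℂ) := by
      push_cast
      ring
    rw [h2, Complex.re_mul_ofReal]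
  rw [Finset.sum_congr rfl h1, Finset.sum_comm, amp_eq ℓ t q c s c.support (Finset.Subset.refl _),
    Finset.mul_sum]
  refine Finset.sum_congr rfl fun x hx => ?_
  rw [← Finset.mul_sum, locA_sum h (fun z => h ((s : G ⧸ N)⁻¹ * z)) x R (hR x hx), mul_comm]

theorem locA (W : Walk G) (ℓ : G → ℝ) (t : ℝ) (q : G) (c : G ⧸ N →₀ ℂ) (hc : c ≠ 0)
    (h : (G ⧸ N) →₀ ℝ) (hh : ∑ x ∈ h.support, h x ^ 2 = 1) (h0 : ∀ x, 0 ≤ h x) {ε : ℝ}
    (hω : ∀ s ∈ W.S, 1 - ε ≤ ∑ x ∈ h.support, h x * h ((s : G ⧸ N)⁻¹ * x)) :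
    ∃ (r : G ⧸ N) (c' : G ⧸ N →₀ ℂ), c' ≠ 0 ∧ (∀ x ∈ c'.support, x * r ∈ h.support) ∧
      En N W ℓ t q c' ≤ (En N W ℓ t q c / nsq c + ε) * nsq c' := by
  classical
  have _h0 := h0
  set R : Finset (G ⧸ N) := (c.support ×ˢ h.support).image (fun p => p.1⁻¹ * p.2) with hRdef
  have hR : ∀ x ∈ c.support, ∀ z ∈ h.support, x⁻¹ * z ∈ R := fun x hx z hz =>
    Finset.mem_image.2 ⟨(x, z), Finset.mem_product.2 ⟨hx, hz⟩, rfl⟩
  have hn := locA_nsq c h hh R hR
  have hcpos := nsq_pos hc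
  -- the total energy
  have hE : ∑ r ∈ R, En N W ℓ t q (locA_cr c h r) =
      nsq c - W.E (fun s => (∑ x ∈ h.support, h x * h ((s : G ⧸ N)⁻¹ * x)) * amp N ℓ t q c s) := by
    unfold En
    rw [Finset.sum_sub_distrib, hn]
    congr 1
    unfold Walk.E
    rw [Finset.sum_comm]
    refine Finset.sum_congr rfl fun s _ => ?_
    rw [← Finset.mul_sum, locA_amp ℓ t q c h R hR s]
  have hEle : ∑ r ∈ R, En N W ℓ t q (locA_cr c h r) ≤ En N W ℓ t q c + ε * nsq c := by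
    rw [hE]
    unfold En
    have h1 : W.E (fun s => amp N ℓ t q c s - ε * nsq c) ≤
        W.E (fun s => (∑ x ∈ h.support, h x * h ((s : G ⧸ N)⁻¹ * x)) * amp N ℓ t q c s) := by
      refine W.E_mono fun s hs => ?_
      have h2 := hω s hs
      have h3 := locA_omega h hh ((s : G ⧸ N)⁻¹)
      have h4 := (abs_le.1 (abs_amp_le ℓ t q c s)).2
      nlinarith [mul_le_mul_of_nonneg_left h4 (sub_nonneg.2 h3)]
    rw [W.E_sub, W.E_const] at h1
    linarith
  by_contra hcon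
  push Not at hcon
  have hz : ∀ r, locA_cr c h r = 0 → En N W ℓ t q (locA_cr c h r) = 0 ∧
      nsq (locA_cr c h r) = 0 := by
    intro r hr
    rw [hr]
    simp [En, nsq, amp, Walk.E]
  have hsupp : ∀ r, ∀ x ∈ (locA_cr c h r).support, x * r ∈ h.support := by
    intro r x hx
    rw [Finsupp.mem_support_iff, locA_cr_apply] at hx
    rw [Finsupp.mem_support_iff]
    intro h5
    exact hx (by rw [h5]; simp)
  have hlt : ∑ r ∈ R, (En N W ℓ t q c / nsq c + ε) * nsq (locA_cr c h r) <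
      ∑ r ∈ R, En N W ℓ t q (locA_cr c h r) := by
    refine Finset.sum_lt_sum (fun r _ => ?_) ?_
    · by_cases hr : locA_cr c h r = 0
      · rw [(hz r hr).1, (hz r hr).2, mul_zero]
      · exact (hcon r _ hr (hsupp r)).le
    · by_contra hno
      push Not at hno
      have h6 : ∀ r ∈ R, nsq (locA_cr c h r) = 0 := by
        intro r hr
        by_cases hr' : locA_cr c h r = 0
        · exact (hz r hr').2
        · exact absurd (hcon r _ hr' (hsupp r)) (not_lt.2 (hno r hr))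
      rw [Finset.sum_eq_zero h6] at hn
      linarith
  rw [← Finset.mul_sum, hn, add_mul, div_mul_cancel₀ _ hcpos.ne'] at hlt
  linarith

end Pool.SpecDense.IV
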