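import Pool.Agent.Lib.MP_863a8d_al.IV.Basic

/-!
# JOB LocB: localisation, second step (translation to a fixed finite set)

Let `ρ : G` be a representative of `r` (`Quotient.out r`). For `z : G ⧸ N` the elements `σ(z r⁻¹)` and
`σ(z) ρ⁻¹` have the same class (`σ = Quotient.out`), so `σ(z r⁻¹) = σ(z) ρ⁻¹ ν(z)` with
`ν(z) := ρ σ(z)⁻¹ σ(z r⁻¹) ∈ N`. Hence for `x = z r⁻¹`
`co g x = σ(g⁻¹ x)⁻¹ g⁻¹ σ(x) = ν(g⁻¹ z)⁻¹ (ρ (co g z) ρ⁻¹) ν(z)`,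
so with `q' = ρ⁻¹ q` and additivity of `ℓ` on `N` (`ℓ (a⁻¹) = -ℓ a`)
`ℓ (q⁻¹ co(g, x) q) = -ℓ (q⁻¹ ν(g⁻¹ z) q) + ℓ (q'⁻¹ co(g, z) q') + ℓ (q⁻¹ ν(z) q)`.
Put `c' z = exp (i t ℓ (q⁻¹ ν(z) q)) * c (z r⁻¹)`, supported in `F` by hypothesis. Then
`conj (c' z) * (ph q' g z * c' (g⁻¹ z)) = conj (c x) * (ph q g x * c (g⁻¹ x))` for `x = z r⁻¹`
(note `g⁻¹ z r⁻¹ = g⁻¹ x`), so all `amp` agree and `nsq c' = nsq c`, `En` agree.
(`amp_eq`, `nsq_eq` with a finite set containing the supports; substitute `z = x r`.)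
-/

set_option autoImplicit false

open scoped ComplexConjugate

namespace Pool.SpecDense.IV

universe u

variable {G : Type u} [Group G] {N : Subgroup G} [N.Normal]

theorem locB (W : Walk G) {ℓ : G → ℝ} (hadd : ∀ a ∈ N, ∀ b ∈ N, ℓ (a * b) = ℓ a + ℓ b) (t : ℝ)
    (q : G) (c : G ⧸ N →₀ ℂ) (r : G ⧸ N) (F : Finset (G ⧸ N)) (hF : ∀ x ∈ c.support, x * r ∈ F) :
    ∃ (q' : G) (c' : G ⧸ N →₀ ℂ), c'.support ⊆ F ∧ nsq c' = nsq c ∧
      En N W ℓ t q' c' = En N W ℓ t q c := by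
  classical
  have hcl : ∀ y : G ⧸ N, ((Quotient.out y : G) : G ⧸ N) = y := fun y => QuotientGroup.out_eq' y
  obtain ⟨ρ, hρ⟩ : ∃ ρ : G, (ρ : G ⧸ N) = r := ⟨Quotient.out r, hcl r⟩
  obtain ⟨ν, hνdef⟩ : ∃ ν : G ⧸ N → G, ∀ z, ν z = ρ * (Quotient.out z)⁻¹ * Quotient.out (z * r⁻¹) :=
    ⟨_, fun _ => rfl⟩
  have hν : ∀ z, ν z ∈ N := by
    intro z
    rw [← QuotientGroup.eq_one_iff, hνdef, QuotientGroup.mk_mul, QuotientGroup.mk_mul,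
      QuotientGroup.mk_inv, hcl, hcl, hρ]
    group
  have hl1 : ℓ 1 = 0 := by
    have := hadd 1 N.one_mem 1 N.one_mem
    rw [mul_one] at this
    linarith
  have hlinv : ∀ a ∈ N, ℓ a⁻¹ = -ℓ a := by
    intro a ha
    have := hadd a ha a⁻¹ (N.inv_mem ha)
    rw [mul_inv_cancel, hl1] at this
    linarith
  have hco : ∀ (g : G) (z : G ⧸ N), co N g (z * r⁻¹) =
      (ν ((g : G ⧸ N)⁻¹ * z))⁻¹ * (ρ * co N g z * ρ⁻¹) * ν z := by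
    intro g z
    rw [hνdef, hνdef]
    unfold co
    rw [← mul_assoc ((g : G ⧸ N)⁻¹) z r⁻¹]
    group
  -- the exponent
  have hexp : ∀ (g : G) (z : G ⧸ N), ℓ (q⁻¹ * co N g (z * r⁻¹) * q) =
      -ℓ (q⁻¹ * ν ((g : G ⧸ N)⁻¹ * z) * q) + ℓ ((ρ⁻¹ * q)⁻¹ * co N g z * (ρ⁻¹ * q))
        + ℓ (q⁻¹ * ν z * q) := by
    intro g z
    have e1 : q⁻¹ * co N g (z * r⁻¹) * q =
        (q⁻¹ * ν ((g : G ⧸ N)⁻¹ * z) * q)⁻¹ * ((ρ⁻¹ * q)⁻¹ * co N g z * (ρ⁻¹ * q)) *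
          (q⁻¹ * ν z * q) := by
      rw [hco]
      group
    have m1 : q⁻¹ * ν ((g : G ⧸ N)⁻¹ * z) * q ∈ N := Ell.mem_conj' (hν _) q
    have m2 : (ρ⁻¹ * q)⁻¹ * co N g z * (ρ⁻¹ * q) ∈ N := Ell.mem_conj' (co_mem N g z) _
    have m3 : q⁻¹ * ν z * q ∈ N := Ell.mem_conj' (hν z) q
    rw [e1, hadd _ (N.mul_mem (N.inv_mem m1) m2) _ m3, hadd _ (N.inv_mem m1) _ m2, hlinv _ m1]
  -- the new vector
  let φ : G ⧸ N → ℂ := fun z => Complex.exp (((t * ℓ (q⁻¹ * ν z * q) : ℝ) : ℂ) * Complex.I)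
  have hφ : ∀ z, ‖φ z‖ = 1 := fun z => Complex.norm_exp_ofReal_mul_I _
  let c' : G ⧸ N →₀ ℂ := Finsupp.onFinset F (fun z => φ z * c (z * r⁻¹)) (by
    intro z hz
    have h2 : c (z * r⁻¹) ≠ 0 := right_ne_zero_of_mul hz
    have h3 := hF _ (Finsupp.mem_support_iff.2 h2)
    rwa [inv_mul_cancel_right] at h3)
  have hc' : ∀ z, c' z = φ z * c (z * r⁻¹) := fun z => rfl
  have hsub : c'.support ⊆ F := Finsupp.support_onFinset_subset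
  have hsub2 : c.support ⊆ F.image (fun z => z * r⁻¹) := by
    intro x hx
    rw [Finset.mem_image]
    exact ⟨x * r, hF x hx, by rw [mul_inv_cancel_right]⟩
  have hinj : Set.InjOn (fun z : G ⧸ N => z * r⁻¹) (F : Set (G ⧸ N)) :=
    fun a _ b _ hab => mul_right_cancel hab
  have hnsq : nsq c' = nsq c := by
    rw [nsq_eq c' F hsub, nsq_eq c _ hsub2, Finset.sum_image hinj]
    refine Finset.sum_congr rfl fun z _ => ?_
    rw [hc', norm_mul, hφ, one_mul]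
  have hph : ∀ (g : G) (z : G ⧸ N),
      conj (c' z) * (ph N ℓ t (ρ⁻¹ * q) g z * c' ((g : G ⧸ N)⁻¹ * z)) =
        conj (c (z * r⁻¹)) * (ph N ℓ t q g (z * r⁻¹) * c ((g : G ⧸ N)⁻¹ * (z * r⁻¹))) := by
    intro g z
    have e1 : conj (φ z) = Complex.exp (((-(t * ℓ (q⁻¹ * ν z * q)) : ℝ) : ℂ) * Complex.I) := by
      show conj (Complex.exp _) = _
      rw [← Complex.exp_conj, map_mul, Complex.conj_ofReal, Complex.conj_I]
      congr 1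
      push_cast
      ring
    have e2 : conj (φ z) * ph N ℓ t (ρ⁻¹ * q) g z * φ ((g : G ⧸ N)⁻¹ * z) =
        ph N ℓ t q g (z * r⁻¹) := by
      rw [e1]
      unfold ph
      show _ * Complex.exp _ * Complex.exp _ = _
      rw [← Complex.exp_add, ← Complex.exp_add, hexp]
      congr 1
      push_cast
      ring
    rw [hc', hc', map_mul, ← e2, mul_assoc ((g : G ⧸ N)⁻¹) z r⁻¹]
    ring
  have hamp : ∀ g : G, amp N ℓ t (ρ⁻¹ * q) c' g = amp N ℓ t q c g := by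
    intro g
    rw [amp_eq ℓ t _ c' g F hsub, amp_eq ℓ t q c g _ hsub2, Finset.sum_image hinj]
    refine Finset.sum_congr rfl fun z _ => ?_
    rw [hph]
  refine ⟨ρ⁻¹ * q, c', hsub, hnsq, ?_⟩
  unfold En
  rw [hnsq]
  simp only [hamp]

end Pool.SpecDense.IV
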