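import Pool.Agent.Lib.MP_863a8d_al.IV.Defs

/-!
# JOB Near: near minimisers of the energy give points of the spectrum

`V` is a real (pre-)inner product space with an orthogonal representation `σ` of `G`,
`De W σ u = u - ∑ s, μ s • σ s u` (file `Dich.lean`, namespace `Dich`).

`pd_coeff`: `PD (fun g => inner (σ g v) v)`: symmetric by `Dich.inner_shift` and `real_inner_comm`;
`∑ x y, c x c y inner (σ (x⁻¹ y) v) v = ‖∑ y, c y • σ y v‖² ≥ 0` (`inner (σ (x⁻¹ * y) v) v = inner (σ y v) (σ x v)`).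
`ev_coeff`: `Dich.aeval_DR` evaluated at `1`, and `σ 1 = 1`.
`near`: suppose no `y ∈ W.spec` has `|y - E| < r`. The polynomial `p = (X - C E) ^ 2 - C (r ^ 2)` is
nonnegative on `W.spec`, so `0 ≤ W.ev p φ = inner ((De - E)² v) v - r² ‖v‖² = ‖A v‖² - r²` where
`A = De - E` (`Walk.ev_nonneg`, symmetry `Dich.De_symm` or `Dich.aeval_symm`).
On the other hand `B u w = inner (A u) w` is a symmetric nonnegative form (hypothesis `hlow`), so by the
Cauchy Schwarz inequality for `B` (discriminant of `τ ↦ B (u + τ w) (u + τ w) ≥ 0`)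
`‖A v‖⁴ = B v (A v) ² ≤ B v v * B (A v) (A v) ≤ η * 2 ‖A v‖²`
since `inner (De u) u ≤ 2 ‖u‖²` and `0 ≤ E` (`E ≥ 0` may be assumed: it is a hypothesis).
So `‖A v‖² ≤ 2 η < r²`, a contradiction.
`disp`: `‖σ g v - v‖² ≤ C_g * inner (De v) v` for all orthogonal representations, by
`Subgroup.closure_induction` (`W.gen`): generators: `Dich.step_le` (`C = 2 / μ s`), identity: `0`,
products: `‖σ (ab) v - v‖ ≤ ‖σ b v - v‖ + ‖σ a v - v‖`, so `C_{ab} = 2 C_a + 2 C_b`, inverses: same constant.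
Note that the constant must not depend on the representation: do the induction on the statement
`∃ C, 0 ≤ C ∧ ∀ V ..., ...`.
-/

set_option autoImplicit false

open Polynomial

namespace Pool.SpecDense.IV

universe u v

variable {G : Type u} [Group G]

theorem pd_coeff {V : Type v} [SeminormedAddCommGroup V] [InnerProductSpace ℝ V]
    (σ : G →* Module.End ℝ V) (hσ : ∀ g u v, (inner ℝ (σ g u) (σ g v) : ℝ) = inner ℝ u v) (v : V) :
    PD (fun g => (inner ℝ (σ g v) v : ℝ)) := by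
  have hk : ∀ x y : G, (inner ℝ (σ (x⁻¹ * y) v) v : ℝ) = inner ℝ (σ y v) (σ x v) := by
    intro x y
    rw [← hσ x (σ (x⁻¹ * y) v) v]
    congr 1
    rw [← Module.End.mul_apply, ← map_mul, mul_inv_cancel_left]
  refine ⟨fun x y => ?_, fun F c => ?_⟩
  · show (inner ℝ (σ (x⁻¹ * y) v) v : ℝ) = inner ℝ (σ (y⁻¹ * x) v) v
    rw [hk, hk, real_inner_comm]
  · have h : ∑ x ∈ F, ∑ y ∈ F, c x * c y * (inner ℝ (σ (x⁻¹ * y) v) v : ℝ) =
        inner ℝ (∑ y ∈ F, c y • σ y v) (∑ x ∈ F, c x • σ x v) := by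
      rw [inner_sum]
      refine Finset.sum_congr rfl fun x _ => ?_
      rw [sum_inner]
      refine Finset.sum_congr rfl fun y _ => ?_
      rw [hk, real_inner_smul_left, real_inner_smul_right]
      ring
    show 0 ≤ ∑ x ∈ F, ∑ y ∈ F, c x * c y * (inner ℝ (σ (x⁻¹ * y) v) v : ℝ)
    rw [h]
    exact real_inner_self_nonneg

theorem ev_coeff {V : Type v} [SeminormedAddCommGroup V] [InnerProductSpace ℝ V] (W : Walk G)
    (σ : G →* Module.End ℝ V) (p : ℝ[X]) (v : V) :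
    W.ev p (fun g => (inner ℝ (σ g v) v : ℝ)) = inner ℝ (aeval (Dich.De W σ) p v) v := by
  unfold Walk.ev
  rw [Dich.aeval_DR W σ]
  show (inner ℝ (σ 1 (aeval (Dich.De W σ) p v)) v : ℝ) = _
  rw [map_one, Module.End.one_apply]

theorem near {V : Type v} [SeminormedAddCommGroup V] [InnerProductSpace ℝ V] (W : Walk G)
    (hG : Folner G) (σ : G →* Module.End ℝ V)
    (hσ : ∀ g u v, (inner ℝ (σ g u) (σ g v) : ℝ) = inner ℝ u v) {E r η : ℝ} (hE : 0 ≤ E)
    (hr : 0 < r) (hη : 2 * η < r ^ 2)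
    (hlow : ∀ u : V, E * ‖u‖ ^ 2 ≤ (inner ℝ (Dich.De W σ u) u : ℝ)) (v : V) (hv : ‖v‖ = 1)
    (hnear : (inner ℝ (Dich.De W σ v) v : ℝ) ≤ E + η) :
    ∃ y ∈ W.spec, |y - E| < r := by
  by_contra hcon
  push Not at hcon
  have hpoly : ∀ y ∈ W.spec, 0 ≤ ((X - C E) ^ 2 - C (r ^ 2) : ℝ[X]).eval y := by
    intro y hy
    simp only [eval_sub, eval_pow, eval_X, eval_C]
    have h1 := hcon y hy
    have h2 : r ^ 2 ≤ |y - E| ^ 2 := pow_le_pow_left₀ hr.le h1 2
    rw [sq_abs] at h2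
    linarith
  have h1 := W.ev_nonneg hG hpoly (pd_coeff σ hσ v)
  rw [ev_coeff] at h1
  have hsub : ∀ u, aeval (Dich.De W σ) (X - C E : ℝ[X]) u = Dich.De W σ u - E • u := by
    intro u
    rw [map_sub, aeval_X, aeval_C, LinearMap.sub_apply, Module.algebraMap_end_apply]
  have hval : (inner ℝ (aeval (Dich.De W σ) ((X - C E) ^ 2 - C (r ^ 2) : ℝ[X]) v) v : ℝ) =
      ‖Dich.De W σ v - E • v‖ ^ 2 - r ^ 2 := by
    rw [map_sub, LinearMap.sub_apply, inner_sub_left, pow_two (X - C E : ℝ[X]), map_mul,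
      Module.End.mul_apply, Dich.aeval_symm W σ hσ, hsub, real_inner_self_eq_norm_sq, aeval_C,
      Module.algebraMap_end_apply, real_inner_smul_left, real_inner_self_eq_norm_sq, hv]
    ring
  rw [hval] at h1
  set w : V := Dich.De W σ v - E • v with hw
  -- the nonnegative form
  have hB : ∀ τ : ℝ, 0 ≤ (inner ℝ (Dich.De W σ (v + τ • w)) (v + τ • w) : ℝ) -
      E * ‖v + τ • w‖ ^ 2 := fun τ => by linarith [hlow (v + τ • w)]
  have hDw : (inner ℝ (Dich.De W σ w) w : ℝ) ≤ 2 * ‖w‖ ^ 2 := by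
    have h2 := Dich.norm_De_sq_le W σ hσ w
    have h3 : (inner ℝ (Dich.De W σ w) w : ℝ) ≤ ‖Dich.De W σ w‖ * ‖w‖ := real_inner_le_norm _ _
    have h4 := Dich.energy_nonneg W σ hσ w
    nlinarith [sq_nonneg (‖Dich.De W σ w‖ - 2 * ‖w‖), norm_nonneg w]
  have hexp : ∀ τ : ℝ, (inner ℝ (Dich.De W σ (v + τ • w)) (v + τ • w) : ℝ) -
      E * ‖v + τ • w‖ ^ 2 = ((inner ℝ (Dich.De W σ v) v : ℝ) - E) + 2 * τ * ‖w‖ ^ 2 +
        τ ^ 2 * ((inner ℝ (Dich.De W σ w) w : ℝ) - E * ‖w‖ ^ 2) := by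
    intro τ
    have hc : (inner ℝ (Dich.De W σ w) v : ℝ) = inner ℝ (Dich.De W σ v) w := by
      rw [Dich.De_symm W σ hσ, real_inner_comm]
    have hww : ‖w‖ ^ 2 = (inner ℝ (Dich.De W σ v) w : ℝ) - E * inner ℝ v w := by
      rw [← real_inner_self_eq_norm_sq]
      nth_rewrite 1 [hw]
      rw [inner_sub_left, real_inner_smul_left]
    have hn : ‖v + τ • w‖ ^ 2 = 1 + 2 * τ * inner ℝ v w + τ ^ 2 * ‖w‖ ^ 2 := by
      rw [norm_add_sq_real, hv, real_inner_smul_right, norm_smul, mul_pow, Real.norm_eq_abs,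
        sq_abs]
      ring
    rw [hn, map_add, map_smul, inner_add_left, inner_add_right, inner_add_right,
      real_inner_smul_left, real_inner_smul_left, real_inner_smul_right, real_inner_smul_right, hc]
    linear_combination (-2 * τ) * hww
  set S : ℝ := ‖w‖ ^ 2 with hS
  have hS0 : r ^ 2 ≤ S := by linarith
  have hSpos : 0 < S := lt_of_lt_of_le (by positivity) hS0
  -- take `τ = -1/2`
  have h5 := hB (-(1 / 2))
  rw [hexp] at h5
  have h6 : (inner ℝ (Dich.De W σ w) w : ℝ) - E * S ≤ 2 * S := by nlinarith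
  nlinarith

theorem disp (W : Walk G) (g : G) : ∃ C : ℝ, 0 ≤ C ∧ ∀ (V : Type v) [SeminormedAddCommGroup V]
    [InnerProductSpace ℝ V] (σ : G →* Module.End ℝ V)
    (_ : ∀ g u v, (inner ℝ (σ g u) (σ g v) : ℝ) = inner ℝ u v) (v : V),
    ‖σ g v - v‖ ^ 2 ≤ C * (inner ℝ (Dich.De W σ v) v : ℝ) := by
  have hg : g ∈ Subgroup.closure (W.S : Set G) := by rw [W.gen]; exact Subgroup.mem_top g
  induction hg using Subgroup.closure_induction with
  | mem s hs =>
      have hpos := W.pos s hs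
      refine ⟨2 / W.μ s, by positivity, ?_⟩
      intro V _ _ σ hσ v
      have h := Dich.step_le W σ hσ hs v
      rw [div_mul_eq_mul_div, le_div_iff₀ hpos]
      linarith
  | one =>
      refine ⟨0, le_refl _, ?_⟩
      intro V _ _ σ hσ v
      simp
  | mul a b _ _ ha hb =>
      obtain ⟨Ca, hCa, ha⟩ := ha
      obtain ⟨Cb, hCb, hb⟩ := hb
      refine ⟨2 * Ca + 2 * Cb, by positivity, ?_⟩
      intro V _ _ σ hσ v
      have h1 := ha V σ hσ v
      have h2 := hb V σ hσ v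
      have h3 : ‖σ (a * b) v - v‖ ≤ ‖σ a v - v‖ + ‖σ b v - v‖ := by
        rw [map_mul, Module.End.mul_apply]
        calc ‖σ a (σ b v) - v‖ = ‖(σ a v - v) + σ a (σ b v - v)‖ := by
              rw [map_sub]; congr 1; abel
          _ ≤ ‖σ a v - v‖ + ‖σ b v - v‖ := by
              refine (norm_add_le _ _).trans ?_
              rw [Dich.norm_σ σ hσ]
      have h4 : ‖σ (a * b) v - v‖ ^ 2 ≤ (‖σ a v - v‖ + ‖σ b v - v‖) ^ 2 :=
        pow_le_pow_left₀ (norm_nonneg _) h3 2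
      nlinarith [sq_nonneg (‖σ a v - v‖ - ‖σ b v - v‖)]
  | inv a _ ha =>
      obtain ⟨Ca, hCa, ha⟩ := ha
      refine ⟨Ca, hCa, ?_⟩
      intro V _ _ σ hσ v
      refine le_trans (le_of_eq ?_) (ha V σ hσ v)
      congr 1
      rw [← Dich.norm_σ σ hσ a (σ a⁻¹ v - v), map_sub, ← Module.End.mul_apply, ← map_mul,
        mul_inv_cancel, map_one, Module.End.one_apply, norm_sub_rev]

end Pool.SpecDense.IV
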