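import Pool.Agent.Lib.MP_863a8d_al.IV.Rep
import Pool.Agent.Lib.MP_863a8d_al.IV.Near

/-!
# JOB Low: the bottom energy is positive for some `t`

Let `E`, `c₀` be as in `hℓ.away` and `C_n` bounds as in `hℓ.bdd` for `n ∈ E`; choose `T > 0` with
`T C_n ≤ π` for all `n ∈ E` (e.g. `T = π / (1 + ∑ n ∈ E, |C_n|)`).
For `n ∈ N` and `x : G ⧸ N` we have `n⁻¹ x = x` (normality) and `co n x = σ(x)⁻¹ n⁻¹ σ(x)`, so
`amp c n = ∑ x, ‖c x‖² cos (T ℓ (g⁻¹ n g))`, `g = σ(x) q` (`q⁻¹ σ(x)⁻¹ n⁻¹ σ(x) q = (g⁻¹ n g)⁻¹`; cosine is even) and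
in the representation of `exists_rep`: `‖σ n v - v‖² = 2 nsq c - 2 amp c n
  = ∑ x, ‖c x‖² * 2 (1 - cos (T ℓ (g⁻¹ n g)))`, `v = ι c`.
For `|θ| ≤ π`: `1 - cos θ ≥ (2 / π²) θ²` (Mathlib: `Real.cos_le_one_sub_mul_cos_sq` or
`Real.cos_quadratic_upper_bound`: `cos x ≤ 1 - 2 / π ^ 2 * x ^ 2`). So, summing over `n ∈ E`, for each `x` some
`n ∈ E` contributes `≥ (4 / π²) T² c₀²`, hence `∑ n ∈ E, ‖σ n v - v‖² ≥ (4 / π²) T² c₀² nsq c`.
By `disp` the left side is `≤ (∑ n ∈ E, D_n) * inner (De v) v`, and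
`inner (De v) v = nsq c - W.E (amp c) = En c` (`Dich.inner_De_left`). So `b * nsq c ≤ En c` for all `q, c` with
`b = (4 / π²) T² c₀² / (1 + ∑ D_n) > 0`; use `le_E0`.
-/

set_option autoImplicit false

open scoped ComplexConjugate

namespace Pool.SpecDense.IV

universe u

variable {G : Type u} [Group G] {N : Subgroup G} [N.Normal]

private lemma low_inv {ℓ : G → ℝ} (hadd : ∀ a ∈ N, ∀ b ∈ N, ℓ (a * b) = ℓ a + ℓ b) {a : G}
    (ha : a ∈ N) : ℓ a⁻¹ = -ℓ a := by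
  have h0 : ℓ 1 = 0 := by
    have := hadd 1 N.one_mem 1 N.one_mem
    rw [mul_one] at this
    linarith
  have h1 := hadd a ha a⁻¹ (N.inv_mem ha)
  rw [mul_inv_cancel, h0] at h1
  linarith

private lemma low_amp {ℓ : G → ℝ} (hadd : ∀ a ∈ N, ∀ b ∈ N, ℓ (a * b) = ℓ a + ℓ b) (T : ℝ)
    (q : G) (c : G ⧸ N →₀ ℂ) {n : G} (hn : n ∈ N) :
    amp N ℓ T q c n = ∑ x ∈ c.support,
      ‖c x‖ ^ 2 * Real.cos (T * ℓ ((Quotient.out x * q)⁻¹ * n * (Quotient.out x * q))) := by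
  unfold amp
  refine Finset.sum_congr rfl fun x _ => ?_
  have hn1 : (n : G ⧸ N) = 1 := (QuotientGroup.eq_one_iff n).2 hn
  have h1 : (n : G ⧸ N)⁻¹ * x = x := by rw [hn1, inv_one, one_mul]
  have h2 : q⁻¹ * co N n x * q = ((Quotient.out x * q)⁻¹ * n * (Quotient.out x * q))⁻¹ := by
    unfold co
    rw [h1]
    group
  have h3 : (Quotient.out x * q)⁻¹ * n * (Quotient.out x * q) ∈ N := Ell.mem_conj' hn _
  have h4 : ph N ℓ T q n x = Complex.exp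
      (((T * ℓ ((Quotient.out x * q)⁻¹ * n * (Quotient.out x * q)) : ℝ) : ℂ) * Complex.I) := by
    unfold ph
    rw [h2, low_inv hadd h3]
    congr 3
    ring
  have h5 : conj (c x) * (ph N ℓ T q n x * c x)
      = ((‖c x‖ ^ 2 : ℝ) : ℂ) * ph N ℓ T q n x := by
    have h6 : conj (c x) * c x = ((‖c x‖ ^ 2 : ℝ) : ℂ) := by
      rw [mul_comm, Complex.mul_conj, Complex.normSq_eq_norm_sq]
    rw [← h6]
    ring
  rw [h1, h5, Complex.re_ofReal_mul, h4, Complex.exp_ofReal_mul_I_re]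

theorem low (W : Walk G) {ℓ : G → ℝ} (hℓ : Ell N ℓ) :
    ∃ T : ℝ, 0 < T ∧ 0 < E0 N W ℓ T := by
  obtain ⟨E, c₀, hE, hc₀, haw⟩ := hℓ.away
  have hb : ∀ n, ∃ C : ℝ, n ∈ N → ∀ g : G, |ℓ (g⁻¹ * n * g)| ≤ C := by
    intro n
    by_cases hn : n ∈ N
    · obtain ⟨C, hC⟩ := hℓ.bdd n hn
      exact ⟨C, fun _ => hC⟩
    · exact ⟨0, fun h => absurd h hn⟩
  choose C hC using hb
  choose D hD0 hD using (fun g => disp.{u, u} W g)
  obtain ⟨S, hS⟩ : ∃ S, S = 1 + ∑ n ∈ E, |C n| := ⟨_, rfl⟩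
  have hS0 : 0 < S := by
    rw [hS]
    have : 0 ≤ ∑ n ∈ E, |C n| := Finset.sum_nonneg fun _ _ => abs_nonneg _
    linarith
  obtain ⟨T, hT⟩ : ∃ T, T = Real.pi / S := ⟨_, rfl⟩
  have hT0 : 0 < T := by
    rw [hT]
    exact div_pos Real.pi_pos hS0
  have hTn : ∀ n ∈ E, ∀ g : G, |T * ℓ (g⁻¹ * n * g)| ≤ Real.pi := by
    intro n hn g
    have h1 : |ℓ (g⁻¹ * n * g)| ≤ S := by
      have h2 := (hC n (hE n hn) g).trans (le_abs_self _)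
      have h3 : |C n| ≤ ∑ n ∈ E, |C n| :=
        Finset.single_le_sum (f := fun n => |C n|) (fun _ _ => abs_nonneg _) hn
      rw [hS]
      linarith
    rw [abs_mul, abs_of_pos hT0]
    calc T * |ℓ (g⁻¹ * n * g)| ≤ T * S := mul_le_mul_of_nonneg_left h1 hT0.le
      _ = Real.pi := by rw [hT, div_mul_cancel₀ _ hS0.ne']
  obtain ⟨A, hA⟩ : ∃ A, A = 1 + ∑ n ∈ E, D n := ⟨_, rfl⟩
  have hDs : 0 ≤ ∑ n ∈ E, D n := Finset.sum_nonneg fun _ _ => hD0 _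
  have hA0 : 0 < A := by
    rw [hA]
    linarith
  obtain ⟨κ, hκ⟩ : ∃ κ, κ = 4 / Real.pi ^ 2 * T ^ 2 * c₀ ^ 2 := ⟨_, rfl⟩
  have hκ0 : 0 < κ := by
    rw [hκ]
    have := Real.pi_pos
    positivity
  refine ⟨T, hT0, lt_of_lt_of_le (div_pos hκ0 hA0) (le_E0 W ℓ T (κ / A) fun q c => ?_)⟩
  obtain ⟨V, i1, i2, σ, ι, -, hσ, hι, hamp⟩ := exists_rep hℓ.add T q
  have hEn : (inner ℝ (Dich.De W σ (ι c)) (ι c) : ℝ) = En N W ℓ T q c := by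
    rw [Dich.inner_De_left, real_inner_self_eq_norm_sq, hι]
    unfold En
    simp_rw [hamp]
  have hEn0 := En_nonneg W ℓ T q c
  have h1 : ∀ n ∈ E, 2 * nsq c - 2 * amp N ℓ T q c n ≤ D n * En N W ℓ T q c := by
    intro n _
    have h2 := hD n V σ hσ (ι c)
    rw [hEn, norm_sub_sq_real, Dich.norm_σ σ hσ, hι, hamp] at h2
    linarith
  have h2 : ∀ n ∈ E, ∑ x ∈ c.support, ‖c x‖ ^ 2 * (4 / Real.pi ^ 2 * T ^ 2 *
      ℓ ((Quotient.out x * q)⁻¹ * n * (Quotient.out x * q)) ^ 2)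
      ≤ 2 * nsq c - 2 * amp N ℓ T q c n := by
    intro n hn
    rw [low_amp hℓ.add T q c (hE n hn)]
    unfold nsq
    rw [Finset.mul_sum, Finset.mul_sum, ← Finset.sum_sub_distrib]
    refine Finset.sum_le_sum fun x _ => ?_
    have h3 := Real.cos_le_one_sub_mul_cos_sq (hTn n hn (Quotient.out x * q))
    have h4 : 0 ≤ ‖c x‖ ^ 2 := by positivity
    have h5 := mul_le_mul_of_nonneg_left h3 h4
    have e : ‖c x‖ ^ 2 * (4 / Real.pi ^ 2 * T ^ 2 *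
        ℓ ((Quotient.out x * q)⁻¹ * n * (Quotient.out x * q)) ^ 2)
        = 2 * ‖c x‖ ^ 2 - 2 * (‖c x‖ ^ 2 * (1 - 2 / Real.pi ^ 2 *
          (T * ℓ ((Quotient.out x * q)⁻¹ * n * (Quotient.out x * q))) ^ 2)) := by ring
    rw [e]
    linarith
  have h3 : κ * nsq c ≤ ∑ n ∈ E, ∑ x ∈ c.support, ‖c x‖ ^ 2 * (4 / Real.pi ^ 2 * T ^ 2 *
      ℓ ((Quotient.out x * q)⁻¹ * n * (Quotient.out x * q)) ^ 2) := by
    rw [Finset.sum_comm]
    unfold nsq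
    rw [Finset.mul_sum]
    refine Finset.sum_le_sum fun x _ => ?_
    obtain ⟨n, hn, hcn⟩ := haw (Quotient.out x * q)
    have h5 : ‖c x‖ ^ 2 * (4 / Real.pi ^ 2 * T ^ 2 *
        ℓ ((Quotient.out x * q)⁻¹ * n * (Quotient.out x * q)) ^ 2) ≤
        ∑ n ∈ E, ‖c x‖ ^ 2 * (4 / Real.pi ^ 2 * T ^ 2 *
          ℓ ((Quotient.out x * q)⁻¹ * n * (Quotient.out x * q)) ^ 2) :=
      Finset.single_le_sum (f := fun n => ‖c x‖ ^ 2 * (4 / Real.pi ^ 2 * T ^ 2 *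
        ℓ ((Quotient.out x * q)⁻¹ * n * (Quotient.out x * q)) ^ 2))
        (fun _ _ => by positivity) hn
    refine le_trans ?_ h5
    have h6 : c₀ ^ 2 ≤ ℓ ((Quotient.out x * q)⁻¹ * n * (Quotient.out x * q)) ^ 2 := by
      rw [← sq_abs (ℓ ((Quotient.out x * q)⁻¹ * n * (Quotient.out x * q)))]
      exact pow_le_pow_left₀ hc₀.le hcn 2
    have h7 : 0 ≤ ‖c x‖ ^ 2 * (4 / Real.pi ^ 2 * T ^ 2) := by positivity
    rw [hκ]
    have h8 := mul_le_mul_of_nonneg_left h6 h7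
    calc 4 / Real.pi ^ 2 * T ^ 2 * c₀ ^ 2 * ‖c x‖ ^ 2
        = ‖c x‖ ^ 2 * (4 / Real.pi ^ 2 * T ^ 2) * c₀ ^ 2 := by ring
      _ ≤ _ := h8
      _ = _ := by ring
  have h4 : κ * nsq c ≤ A * En N W ℓ T q c := by
    have h5 := h3.trans ((Finset.sum_le_sum h2).trans (Finset.sum_le_sum h1))
    rw [← Finset.sum_mul] at h5
    rw [hA]
    nlinarith
  rw [div_mul_eq_mul_div, div_le_iff₀ hA0]
  linarith

end Pool.SpecDense.IV
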