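import Pool.Agent.Lib.MP_863a8d_al.IV.Rep
import Pool.Agent.Lib.MP_863a8d_al.IV.Near

/-!
# JOB Mem: the bottom energy lies in the spectrum

`W.spec` is closed (`Walk.isClosed_spec`), so it suffices to find for every `r > 0` some `y ∈ W.spec` with
`|y - E0| < r` (`Metric.mem_of_closed`-type lemma, `isClosed.closure_eq`, `Metric.mem_closure_iff`).
Given `r`, put `η = r² / 4` and take `q`, `c ≠ 0` with `En c ≤ (E0 + η) nsq c` (`exists_near`). Take the
representation of `exists_rep` for `(t, q)`. For every `u = ι c'` (surjectivity)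
`inner (De u) u = nsq c' - W.E (amp c') = En c' ≥ E0 nsq c' = E0 ‖u‖²` (`Dich.inner_De_left`, `E0_le`).
Apply `near` to the unit vector `v = (sqrt (nsq c))⁻¹ • ι c`.
-/

set_option autoImplicit false

namespace Pool.SpecDense.IV

universe u

variable {G : Type u} [Group G] {N : Subgroup G} [N.Normal]

theorem E0_mem (W : Walk G) (hG : Folner G) {ℓ : G → ℝ}
    (hadd : ∀ a ∈ N, ∀ b ∈ N, ℓ (a * b) = ℓ a + ℓ b) (t : ℝ) : E0 N W ℓ t ∈ W.spec := by
  rw [← W.isClosed_spec.closure_eq, Metric.mem_closure_iff]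
  intro r hr
  have hη : 0 < r ^ 2 / 4 := by positivity
  obtain ⟨q, c, hc, hnear⟩ := exists_near (N := N) W ℓ t hη
  obtain ⟨V, i1, i2, σ, ι, hsurj, hσ, hnorm, hamp⟩ := exists_rep (N := N) hadd t q
  have hDe : ∀ c', (inner ℝ (Dich.De W σ (ι c')) (ι c') : ℝ) = En N W ℓ t q c' := by
    intro c'
    rw [Dich.inner_De_left, real_inner_self_eq_norm_sq, hnorm]
    unfold En
    congr 1
    exact W.E_congr fun s _ => hamp c' s
  have hns : 0 < nsq c := nsq_pos hc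
  have hsq : 0 < Real.sqrt (nsq c) := Real.sqrt_pos.2 hns
  have h5 : ‖ι c‖ = Real.sqrt (nsq c) := by
    rw [← hnorm, Real.sqrt_sq (norm_nonneg _)]
  have hlow : ∀ u : V, E0 N W ℓ t * ‖u‖ ^ 2 ≤ (inner ℝ (Dich.De W σ u) u : ℝ) := by
    intro u
    obtain ⟨c', rfl⟩ := hsurj u
    rw [hDe, hnorm]
    exact E0_le W ℓ t q c'
  have hv : ‖(Real.sqrt (nsq c))⁻¹ • ι c‖ = 1 := by
    rw [norm_smul, h5, Real.norm_of_nonneg (inv_nonneg.2 hsq.le), inv_mul_cancel₀ hsq.ne']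
  have hn : (inner ℝ (Dich.De W σ ((Real.sqrt (nsq c))⁻¹ • ι c)) ((Real.sqrt (nsq c))⁻¹ • ι c) : ℝ) ≤
      E0 N W ℓ t + r ^ 2 / 4 := by
    rw [map_smul, real_inner_smul_left, real_inner_smul_right, hDe, ← mul_assoc, ← mul_inv,
      Real.mul_self_sqrt hns.le, inv_mul_le_iff₀ hns, mul_comm (nsq c)]
    exact hnear
  obtain ⟨y, hy, hyr⟩ := near W hG σ hσ (E0_nonneg W ℓ t) hr (η := r ^ 2 / 4) (by nlinarith [sq_nonneg r, pow_pos hr 2])
    hlow _ hv hn
  exact ⟨y, hy, by rw [Real.dist_eq, abs_sub_comm]; exact hyr⟩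

end Pool.SpecDense.IV
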