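import Pool.Agent.Lib.MP_863a8d_al.IV.Fol
import Pool.Agent.Lib.MP_863a8d_al.IV.Basic

/-!
# JOB Zero: the bottom energy at `t = 0` is zero

`0 ≤ E0` is `E0_nonneg`. For `ε > 0` take `h` from `exists_fol N hG W.S hε` and `c x = (h x : ℂ)`
(`h.mapRange (fun a => (a : ℂ)) (by simp)`), with the same support, `nsq c = 1`. For `t = 0` the phase is
`exp 0 = 1`, so `amp c s = ∑ x, h x * h (s⁻¹ x) ≥ 1 - ε` for `s ∈ W.S` and `En c ≤ 1 - (1 - ε) = ε` (average
`W.E_const`, `W.E_mono`). By `E0_le`, `E0 ≤ ε`.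
-/

set_option autoImplicit false

namespace Pool.SpecDense.IV

universe u

variable {G : Type u} [Group G] {N : Subgroup G} [N.Normal]

theorem Zero_ph (ℓ : G → ℝ) (q g : G) (x : G ⧸ N) : ph N ℓ 0 q g x = 1 := by
  unfold ph
  simp

theorem E0_zero (W : Walk G) (hG : Folner G) (ℓ : G → ℝ) : E0 N W ℓ 0 = 0 := by
  refine le_antisymm ?_ (E0_nonneg W ℓ 0)
  refine le_of_forall_pos_le_add fun ε hε => ?_
  rw [zero_add]
  obtain ⟨h, h1, h2, h3⟩ := exists_fol N hG W.S hε
  have hinj : Function.Injective (fun a : ℝ => (a : ℂ)) := Complex.ofReal_injective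
  let c : (G ⧸ N) →₀ ℂ := h.mapRange (fun a : ℝ => (a : ℂ)) Complex.ofReal_zero
  have hsupp : c.support = h.support := Finsupp.support_mapRange_of_injective _ h hinj
  have hc : ∀ x, c x = (h x : ℂ) := fun x => rfl
  have hn : nsq c = 1 := by
    unfold nsq
    rw [hsupp, ← h1]
    refine Finset.sum_congr rfl fun x _ => ?_
    rw [hc, Complex.norm_real, Real.norm_eq_abs, sq_abs]
  have hE := E0_le (N := N) W ℓ 0 1 c
  rw [hn, mul_one] at hE
  refine hE.trans ?_
  unfold En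
  rw [hn]
  have hamp : ∀ s ∈ W.S, 1 - ε ≤ amp N ℓ 0 1 c s := by
    intro s hs
    refine (h3 s hs).trans (le_of_eq ?_)
    unfold amp
    rw [hsupp]
    refine Finset.sum_congr rfl fun x _ => ?_
    rw [Zero_ph, one_mul, hc, hc, Complex.conj_ofReal, ← Complex.ofReal_mul, Complex.ofReal_re]
  have h4 := W.E_mono (f := fun _ => 1 - ε) hamp
  rw [W.E_const] at h4
  linarith

end Pool.SpecDense.IV
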