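import Pool.Agent.Lib.MP_863a8d_al.IV.Fol
import Pool.Agent.Lib.MP_863a8d_al.IV.LocA
import Pool.Agent.Lib.MP_863a8d_al.IV.LocB
import Pool.Agent.Lib.MP_863a8d_al.IV.Lip
import Pool.Agent.Lib.MP_863a8d_al.IV.Low
import Pool.Agent.Lib.MP_863a8d_al.IV.Mem
import Pool.Agent.Lib.MP_863a8d_al.IV.Zero

/-!
# The criterion
-/

set_option autoImplicit false

open Filter Topology

namespace Pool.SpecDense.IV

universe u

variable {G : Type u} [Group G] {N : Subgroup G} [N.Normal]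

theorem E0_approx (W : Walk G) (hG : Folner G) {ℓ : G → ℝ} (hℓ : Ell N ℓ) {ε : ℝ} (hε : 0 < ε) :
    ∃ C : ℝ, 0 ≤ C ∧ ∀ t t' : ℝ, E0 N W ℓ t' ≤ E0 N W ℓ t + ε + C * |t - t'| := by
  obtain ⟨h, hh, h0, hω⟩ := exists_fol N hG W.S (ε := ε / 2) (by positivity)
  obtain ⟨C, hC, hlip⟩ := lip W hℓ.bdd h.support
  refine ⟨C, hC, fun t t' => ?_⟩
  obtain ⟨q, c, hc, hE⟩ := exists_near (N := N) W ℓ t (η := ε / 2) (by positivity)
  obtain ⟨r, c₁, hc₁, hs, hE₁⟩ := locA W ℓ t q c hc h hh h0 hω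
  obtain ⟨q', c', hs', hn', hE'⟩ := locB W hℓ.add t q c₁ r h.support hs
  have hpos : 0 < nsq c := nsq_pos hc
  have hpos₁ : 0 < nsq c₁ := nsq_pos hc₁
  have h1 : En N W ℓ t q c / nsq c ≤ E0 N W ℓ t + ε / 2 := by
    rw [div_le_iff₀ hpos]
    exact hE
  have h2 : En N W ℓ t q' c' ≤ (E0 N W ℓ t + ε) * nsq c' := by
    rw [hE', hn']
    refine hE₁.trans (mul_le_mul_of_nonneg_right ?_ hpos₁.le)
    linarith
  have h3 := hlip t t' q' c' hs'
  have h4 := E0_le (N := N) W ℓ t' q' c'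
  have hpos' : 0 < nsq c' := by rw [hn']; exact hpos₁
  have h5 : E0 N W ℓ t' * nsq c' ≤ (E0 N W ℓ t + ε + C * |t - t'|) * nsq c' := by
    have := (abs_le.1 h3).1
    nlinarith
  exact le_of_mul_le_mul_right h5 hpos'

theorem E0_continuous (W : Walk G) (hG : Folner G) {ℓ : G → ℝ} (hℓ : Ell N ℓ) :
    Continuous (E0 N W ℓ) := by
  rw [Metric.continuous_iff]
  intro t ε hε
  obtain ⟨C, hC, h⟩ := E0_approx W hG hℓ (ε := ε / 2) (by positivity)
  refine ⟨ε / (2 * (C + 1)), by positivity, fun t' ht' => ?_⟩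
  rw [Real.dist_eq] at ht' ⊢
  have h1 : C * |t' - t| < ε / 2 := by
    rw [lt_div_iff₀ (by positivity)] at ht'
    nlinarith [abs_nonneg (t' - t)]
  rw [abs_lt]
  have h2 := h t t'
  have h3 := h t' t
  rw [abs_sub_comm t t'] at h2
  constructor <;> linarith

/-- The criterion. -/
theorem interval (W : Walk G) (hG : Folner G) {ℓ : G → ℝ} (hℓ : Ell N ℓ) :
    ∃ δ : ℝ, 0 < δ ∧ Set.Icc 0 δ ⊆ W.spec := by
  obtain ⟨T, hT, hpos⟩ := low W hℓ
  refine ⟨E0 N W ℓ T, hpos, fun y hy => ?_⟩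
  have hcont := (E0_continuous W hG hℓ).continuousOn (s := Set.Icc 0 T)
  have himg := intermediate_value_Icc hT.le hcont
  rw [E0_zero W hG ℓ] at himg
  obtain ⟨t, -, rfl⟩ := himg hy
  exact E0_mem W hG hℓ.add t

end Pool.SpecDense.IV
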