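import Pool.Agent.Lib.MP_863a8d_al.IV.Basic

/-!
# The induced representation

Model: `V = G ⧸ N →₀ ℂ` as a real vector space, with the real inner product
`fm c d = ∑ x ∈ c.support, (conj (c x) * d x).re` and `ι = id`.
`(σ g c) x = ph N ℓ t q g x * c ((g : G ⧸ N)⁻¹ * x)`.
-/

set_option autoImplicit false

open scoped ComplexConjugate

namespace Pool.SpecDense.IV

universe u

variable {G : Type u} [Group G] {N : Subgroup G} [N.Normal]

/-- the real inner product of finitely supported functions -/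
noncomputable def Rep_fm {Q : Type u} (c d : Q →₀ ℂ) : ℝ :=
  ∑ x ∈ c.support, (conj (c x) * d x).re

theorem Rep_fm_eq {Q : Type u} (c d : Q →₀ ℂ) (F : Finset Q) (hF : c.support ⊆ F) :
    Rep_fm c d = ∑ x ∈ F, (conj (c x) * d x).re := by
  unfold Rep_fm
  refine Finset.sum_subset hF fun x _ hx => ?_
  rw [Finsupp.notMem_support_iff.1 hx]
  simp

theorem Rep_re (a b : ℂ) : (conj a * b).re = (conj b * a).re := by
  simp only [Complex.mul_re, Complex.conj_re, Complex.conj_im]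
  ring

theorem Rep_fm_symm {Q : Type u} (c d : Q →₀ ℂ) : Rep_fm c d = Rep_fm d c := by
  classical
  rw [Rep_fm_eq c d (c.support ∪ d.support) Finset.subset_union_left,
    Rep_fm_eq d c (c.support ∪ d.support) Finset.subset_union_right]
  exact Finset.sum_congr rfl fun x _ => Rep_re _ _

theorem Rep_fm_add {Q : Type u} (c c' d : Q →₀ ℂ) :
    Rep_fm (c + c') d = Rep_fm c d + Rep_fm c' d := by
  classical
  rw [Rep_fm_eq (c + c') d (c.support ∪ c'.support) Finsupp.support_add,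
    Rep_fm_eq c d (c.support ∪ c'.support) Finset.subset_union_left,
    Rep_fm_eq c' d (c.support ∪ c'.support) Finset.subset_union_right,
    ← Finset.sum_add_distrib]
  refine Finset.sum_congr rfl fun x _ => ?_
  rw [Finsupp.add_apply, map_add, add_mul, Complex.add_re]

theorem Rep_fm_smul {Q : Type u} (r : ℝ) (c d : Q →₀ ℂ) :
    Rep_fm (r • c) d = r * Rep_fm c d := by
  rw [Rep_fm_eq (r • c) d c.support Finsupp.support_smul,
    Rep_fm_eq c d c.support (Finset.Subset.refl _), Finset.mul_sum]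
  refine Finset.sum_congr rfl fun x _ => ?_
  rw [Finsupp.smul_apply, Complex.real_smul, map_mul, Complex.conj_ofReal, mul_assoc,
    Complex.re_ofReal_mul]

theorem Rep_self (a : ℂ) : (conj a * a).re = ‖a‖ ^ 2 := by
  rw [mul_comm, Complex.mul_conj, Complex.ofReal_re, Complex.normSq_eq_norm_sq]

theorem Rep_fm_self {Q : Type u} (c : Q →₀ ℂ) : Rep_fm c c = nsq c := by
  unfold Rep_fm nsq
  exact Finset.sum_congr rfl fun x _ => Rep_self _

/-- the inner product core -/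
@[instance_reducible]
noncomputable def Rep_core (Q : Type u) : PreInnerProductSpace.Core ℝ (Q →₀ ℂ) where
  inner u v := Rep_fm u v
  conj_inner_symm u v := by
    show (starRingEnd ℝ) (Rep_fm v u) = Rep_fm u v
    rw [Rep_fm_symm v u]
    rfl
  re_inner_nonneg u := by
    show 0 ≤ Rep_fm u u
    rw [Rep_fm_self]
    exact nsq_nonneg u
  add_left u v w := Rep_fm_add u v w
  smul_left u v r := by
    show Rep_fm (r • u) v = (starRingEnd ℝ) r * Rep_fm u v
    rw [Rep_fm_smul]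
    rfl

variable (N) in
open Classical in
/-- the operators -/
noncomputable def Rep_op (ℓ : G → ℝ) (t : ℝ) (q g : G) :
    (G ⧸ N →₀ ℂ) →ₗ[ℝ] (G ⧸ N →₀ ℂ) where
  toFun c := Finsupp.onFinset (c.support.image (fun x => (g : G ⧸ N) * x))
    (fun x => ph N ℓ t q g x * c ((g : G ⧸ N)⁻¹ * x)) (by
      intro x hx
      rw [Finset.mem_image]
      refine ⟨(g : G ⧸ N)⁻¹ * x, ?_, by group⟩
      rw [Finsupp.mem_support_iff]
      intro h0
      apply hx
      rw [h0, mul_zero])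
  map_add' c d := by
    ext x
    show ph N ℓ t q g x * (c + d) ((g : G ⧸ N)⁻¹ * x) =
      ph N ℓ t q g x * c ((g : G ⧸ N)⁻¹ * x) + ph N ℓ t q g x * d ((g : G ⧸ N)⁻¹ * x)
    rw [Finsupp.add_apply, mul_add]
  map_smul' r c := by
    ext x
    show ph N ℓ t q g x * (r • c) ((g : G ⧸ N)⁻¹ * x) =
      r • (ph N ℓ t q g x * c ((g : G ⧸ N)⁻¹ * x))
    rw [Finsupp.smul_apply, mul_smul_comm]

theorem Rep_op_apply (ℓ : G → ℝ) (t : ℝ) (q g : G) (c : G ⧸ N →₀ ℂ) (x : G ⧸ N) :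
    Rep_op N ℓ t q g c x = ph N ℓ t q g x * c ((g : G ⧸ N)⁻¹ * x) := rfl

theorem Rep_op_inner (ℓ : G → ℝ) (t : ℝ) (q g : G) (c d : G ⧸ N →₀ ℂ) :
    Rep_fm (Rep_op N ℓ t q g c) (Rep_op N ℓ t q g d) = Rep_fm c d := by
  classical
  have hs : (Rep_op N ℓ t q g c).support ⊆ c.support.image (fun x => (g : G ⧸ N) * x) := by
    intro x hx
    rw [Finsupp.mem_support_iff, Rep_op_apply] at hx
    rw [Finset.mem_image]
    refine ⟨(g : G ⧸ N)⁻¹ * x, ?_, by group⟩
    rw [Finsupp.mem_support_iff]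
    intro h0
    apply hx
    rw [h0, mul_zero]
  rw [Rep_fm_eq (Rep_op N ℓ t q g c) (Rep_op N ℓ t q g d)
    (c.support.image (fun x => (g : G ⧸ N) * x)) hs,
    Finset.sum_image (fun a _ b _ h => mul_left_cancel h)]
  refine Finset.sum_congr rfl fun x _ => ?_
  rw [Rep_op_apply, Rep_op_apply, inv_mul_cancel_left]
  have h1 : conj (ph N ℓ t q g ((g : G ⧸ N) * x)) * ph N ℓ t q g ((g : G ⧸ N) * x) = 1 := by
    rw [mul_comm, Complex.mul_conj, Complex.normSq_eq_norm_sq, norm_ph]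
    simp
  have h2 : conj (ph N ℓ t q g ((g : G ⧸ N) * x) * c x) * (ph N ℓ t q g ((g : G ⧸ N) * x) * d x) =
      (conj (ph N ℓ t q g ((g : G ⧸ N) * x)) * ph N ℓ t q g ((g : G ⧸ N) * x)) *
        (conj (c x) * d x) := by
    rw [map_mul]
    ring
  rw [h2, h1, one_mul]

/-- the representation -/
noncomputable def Rep_rep {ℓ : G → ℝ} (hadd : ∀ a ∈ N, ∀ b ∈ N, ℓ (a * b) = ℓ a + ℓ b) (t : ℝ)
    (q : G) : G →* Module.End ℝ (G ⧸ N →₀ ℂ) where
  toFun g := Rep_op N ℓ t q g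
  map_one' := by
    refine LinearMap.ext fun c => Finsupp.ext fun x => ?_
    rw [Rep_op_apply, ph_one hadd, QuotientGroup.mk_one, inv_one, one_mul, one_mul]
    rfl
  map_mul' g h := by
    refine LinearMap.ext fun c => Finsupp.ext fun x => ?_
    rw [Module.End.mul_apply, Rep_op_apply, Rep_op_apply, Rep_op_apply, ph_mul hadd, mul_assoc,
      QuotientGroup.mk_mul, mul_inv_rev, mul_assoc]

theorem exists_rep {ℓ : G → ℝ} (hadd : ∀ a ∈ N, ∀ b ∈ N, ℓ (a * b) = ℓ a + ℓ b) (t : ℝ) (q : G) :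
    ∃ (V : Type u) (_ : SeminormedAddCommGroup V) (_ : InnerProductSpace ℝ V)
      (σ : G →* Module.End ℝ V) (ι : (G ⧸ N →₀ ℂ) → V), Function.Surjective ι ∧
      (∀ g u v, (inner ℝ (σ g u) (σ g v) : ℝ) = inner ℝ u v) ∧
      (∀ c, ‖ι c‖ ^ 2 = nsq c) ∧
      (∀ c g, (inner ℝ (σ g (ι c)) (ι c) : ℝ) = amp N ℓ t q c g) := by
  let core : PreInnerProductSpace.Core ℝ (G ⧸ N →₀ ℂ) := Rep_core (G ⧸ N)
  let ng : SeminormedAddCommGroup (G ⧸ N →₀ ℂ) :=
    InnerProductSpace.Core.toSeminormedAddCommGroup (𝕜 := ℝ)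
  let ip : InnerProductSpace ℝ (G ⧸ N →₀ ℂ) := InnerProductSpace.ofCore core
  refine ⟨(G ⧸ N →₀ ℂ), ng, ip, Rep_rep hadd t q, id, Function.surjective_id, ?_, ?_, ?_⟩
  · intro g u v
    exact Rep_op_inner ℓ t q g u v
  · intro c
    rw [← Rep_fm_self c]
    exact (real_inner_self_eq_norm_sq (F := (G ⧸ N →₀ ℂ)) c).symm
  · intro c g
    show Rep_fm (Rep_op N ℓ t q g c) c = amp N ℓ t q c g
    rw [Rep_fm_symm]
    rfl

end Pool.SpecDense.IV
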